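import Pool.Agent.Y882.MQ.Sq
import Pool.Agent.Y882.MQ.Fin

/-! Almost primes `p q + a` with a small prime `p`: one block. -/

set_option autoImplicit false

namespace Pool.Agent.Y882.MQ

open Finset Filter
open Pool.Agent.W23.DC
open Pool.Agent.Y882
open Pool.Agent.Y882.PX
open Pool.Agent.Y882.KW
open Pool.Agent.Y882.SI
open Pool.Agent.Y882.GW

open Classical in
/-- the primes `p` in `(x / 2, x)` such that `p q + a` has at most `r` prime factors, all at least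
`z` -/
noncomputable def gpA (r : ℕ) (x z : ℝ) (a : ℤ) (q : ℕ) : Finset ℕ :=
  (Icc 1 ⌊x⌋₊).filter (fun p : ℕ => p.Prime ∧ x / 2 < p ∧ (p : ℝ) < x ∧
    (val a q p).primeFactorsList.length ≤ r ∧ ∀ l : ℕ, l.Prime → l ∣ val a q p → z ≤ l)

theorem sba_split (Y : ℕ) (ζ ξ υ : ℝ) (a : ℤ) (q m : ℕ) (h : SBa Y ζ υ a q m) :
    SBa Y ζ ξ a q m ∨ SBa Y ξ υ a q m := by
  classical
  obtain ⟨l, hl, hd⟩ := h
  unfold pr at hl
  rw [mem_filter] at hl
  rcases lt_or_ge (tt Y l) ξ with h1 | h1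
  · left
    exact ⟨l, by unfold pr; rw [mem_filter]; exact ⟨hl.1, hl.2.1, hl.2.2.1, h1⟩, hd⟩
  · right
    exact ⟨l, by unfold pr; rw [mem_filter]; exact ⟨hl.1, hl.2.1, h1, hl.2.2.2⟩, hd⟩

open Classical in
/-- from positive weights to almost primes -/
theorem passA (r : ℕ) (θ ζ υ lam S δ s : ℝ) (hθ0 : 0 < θ) (hθ1 : θ ≤ 1) (hζ0 : 0 < ζ)
    (hζυ : ζ ≤ υ) (hυ1 : υ ≤ 1) (hlam : 0 < lam) (hδ : 0 < δ) (hs0 : 0 < s) (hsζ : 2 * s ≤ ζ)
    (hr : 1 / lam + S / υ ≤ r + 1) :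
    ∃ Y0 : ℕ, ∀ Y : ℕ, Y0 ≤ Y → ∀ x : ℝ, (Y : ℝ) ^ θ ≤ x → x ≤ Y → 3 * (x * Y) ≤ (Y : ℝ) ^ S →
      ∀ (a : ℤ) (q : ℕ), a.natAbs ≤ Y → a.natAbs.Coprime q → Y < q → q ≤ 2 * Y →
      δ * x / Real.log Y ^ 2 * sgs (a.natAbs * q) ≤
        (cnG x (fun m => WW Y ζ υ lam (lam / υ) (val a q m)) : ℝ) →
      (((Icc 1 ⌊x⌋₊).filter (fun m => SBa Y (max ζ (θ - 2 * s)) υ a q m)).card : ℝ) ≤
        (⌊x⌋₊ : ℝ) / (Y : ℝ) ^ s →
      δ / 4 * x / Real.log Y ^ 2 * sgs (a.natAbs * q) ≤ ((gpA r x ((Y : ℝ) ^ ζ) a q).card : ℝ) := by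
  have hυ0 : 0 < υ := by linarith
  set ξ : ℝ := max ζ (θ - 2 * s) with hξ
  have hζξ : ζ ≤ ξ := le_max_left _ _
  have hξ0 : 0 < ξ := hζ0.trans_le hζξ
  have hξ1 : ξ ≤ 1 := max_le (by linarith) (by linarith)
  obtain ⟨Y3, HM⟩ := medA ζ ξ hζ0 hξ1
  have ev1 := polylog (16 / δ) 2 s hs0
  have ev2 : ∀ᶠ Y : ℕ in atTop, (4 : ℝ) ≤ (Y : ℝ) ^ s :=
    ((tendsto_rpow_atTop hs0).comp tendsto_natCast_atTop_atTop).eventually_ge_atTop _
  have ev5 : ∀ᶠ Y : ℕ in atTop, (4 : ℝ) ≤ (Y : ℝ) ^ θ :=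
    ((tendsto_rpow_atTop hθ0).comp tendsto_natCast_atTop_atTop).eventually_ge_atTop _
  obtain ⟨Y4, hY4⟩ := eventually_atTop.1
    (ev1.and (ev2.and (ev5.and (eventually_ge_atTop 3))))
  refine ⟨max Y3 Y4, ?_⟩
  intro Y hY x hYx hxY hxS a q haY hcop hq1 hq2 g1 g2
  obtain ⟨e1, e2, e5, e6⟩ := hY4 Y ((le_max_right _ _).trans hY)
  have hY3 : Y3 ≤ Y := (le_max_left _ _).trans hY
  have haq : a.natAbs < q := by omega
  have hYr : (3 : ℝ) ≤ Y := by exact_mod_cast e6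
  have hY0 : (0 : ℝ) < Y := by linarith
  have hY1r : (1 : ℝ) ≤ Y := by linarith
  have hlY : 0 < Real.log Y := Real.log_pos (by linarith)
  have hx0 : 0 < x := by linarith
  set X : ℕ := ⌊x⌋₊ with hX
  have hXx : (X : ℝ) ≤ x := Nat.floor_le hx0.le
  have hX1 : 1 ≤ X := Nat.le_floor (by push_cast; linarith)
  have hXY : X ≤ Y := by exact_mod_cast hXx.trans hxY
  have hXpos : (0 : ℝ) < X := by exact_mod_cast hX1
  have hxX : x ≤ 2 * X := by
    have h1 := Nat.lt_floor_add_one x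
    rw [← hX] at h1
    have h2 : (1 : ℝ) ≤ X := by exact_mod_cast hX1
    linarith
  set t : ℝ := (Y : ℝ) ^ s with ht
  have ht0 : 0 < t := by positivity
  have g3 : (((Icc 1 X).filter (fun m => SBa Y ζ ξ a q m)).card : ℝ) ≤ (X : ℝ) / t := by
    rcases le_or_gt (θ - 2 * s) ζ with hc | hc
    · have hξζ : ξ = ζ := max_eq_left hc
      have : (Icc 1 X).filter (fun m => SBa Y ζ ξ a q m) = ∅ := by
        apply filter_eq_empty_iff.2
        rintro m _ ⟨l, hl, _⟩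
        unfold pr at hl
        rw [mem_filter, hξζ] at hl
        linarith [hl.2.2.1, hl.2.2.2]
      rw [this]
      simp only [card_empty, Nat.cast_zero]
      positivity
    · have hξθ : ξ = θ - 2 * s := max_eq_right hc.le
      refine (HM Y hY3 X q a haq hcop).trans ?_
      have h1 : (X : ℝ) * (2 / (Y : ℝ) ^ ζ) ≤ X / t / 2 := by
        have h9 : t * t ≤ (Y : ℝ) ^ ζ := by
          rw [ht, ← Real.rpow_add hY0]
          exact Real.rpow_le_rpow_of_exponent_le hY1r (by linarith)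
        have h10 : 4 * t ≤ (Y : ℝ) ^ ζ := (mul_le_mul_of_nonneg_right e2 ht0.le).trans h9
        rw [div_div, mul_div_assoc', div_le_div_iff₀ (by positivity) (by positivity)]
        calc (X : ℝ) * 2 * (t * 2) = X * (4 * t) := by ring
          _ ≤ X * (Y : ℝ) ^ ζ := mul_le_mul_of_nonneg_left h10 hXpos.le
      have h2 : (Y : ℝ) ^ ξ ≤ X / t / 2 := by
        have h9 : (Y : ℝ) ^ θ = (Y : ℝ) ^ ξ * (t * t) := by
          rw [ht, ← Real.rpow_add hY0, ← Real.rpow_add hY0, hξθ]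
          congr 1
          ring
        have h10 : (Y : ℝ) ^ ξ * (t * t) ≤ 2 * X := by rw [← h9]; exact hYx.trans hxX
        have h11 : (Y : ℝ) ^ ξ * (4 * t) ≤ 2 * X := by
          refine le_trans ?_ h10
          apply mul_le_mul_of_nonneg_left _ (by positivity)
          exact mul_le_mul_of_nonneg_right e2 ht0.le
        rw [div_div, le_div_iff₀ (by positivity)]
        linarith
      linarith
  have hkey : cnG x (fun m => WW Y ζ υ lam (lam / υ) (val a q m)) ≤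
      (gpA r x ((Y : ℝ) ^ ζ) a q).card +
      (((Icc 1 X).filter (fun m => SBa Y ζ ξ a q m)).card +
        ((Icc 1 X).filter (fun m => SBa Y ξ υ a q m)).card) := by
    unfold cnG
    have h7 : (Icc 1 ⌊x⌋₊).filter (fun p : ℕ => p.Prime ∧ x / 2 < p ∧ (p : ℝ) < x ∧
        0 < WW Y ζ υ lam (lam / υ) (val a q p)) ⊆ gpA r x ((Y : ℝ) ^ ζ) a q ∪
        ((Icc 1 X).filter (fun m => SBa Y ζ ξ a q m) ∪
          (Icc 1 X).filter (fun m => SBa Y ξ υ a q m)) := by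
      intro p hp
      rw [mem_filter] at hp
      obtain ⟨hp1, hp2, hp3, hp4, hp5⟩ := hp
      have hp1' := hp1
      rw [mem_Icc] at hp1'
      obtain ⟨hv0, hv1⟩ := val_spec a q p haq hp1'.1
      rw [mem_union, mem_union]
      by_cases hb : SBa Y ζ υ a q p
      · right
        rcases sba_split Y ζ ξ υ a q p hb with h | h
        · left
          rw [mem_filter]
          exact ⟨hp1, h⟩
        · right
          rw [mem_filter]
          exact ⟨hp1, h⟩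
      · left
        have hres := almost Y (by omega) ζ υ lam S r hζυ hυ0 hυ1 hlam hr (val a q p)
          hv0 (by
            have h8 := (val_le a q p X Y e6 hp1'.1 hp1'.2 hXY haY hq1 hq2).1
            have h9 : ((val a q p : ℕ) : ℝ) ≤ 3 * (X * Y) := by exact_mod_cast h8
            refine h9.trans (le_trans ?_ hxS)
            gcongr) hp5 (by
            intro l hl hld
            exact hb ⟨l, hl, hld⟩)
        unfold gpA
        rw [mem_filter]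
        exact ⟨hp1, hp2, hp3, hp4, hres.1, hres.2⟩
    refine (card_le_card h7).trans ((card_union_le _ _).trans ?_)
    exact Nat.add_le_add_left (card_union_le _ _) _
  have hkr : (cnG x (fun m => WW Y ζ υ lam (lam / υ) (val a q m)) : ℝ) ≤
      ((gpA r x ((Y : ℝ) ^ ζ) a q).card : ℝ) +
      ((((Icc 1 X).filter (fun m => SBa Y ζ ξ a q m)).card : ℝ) +
        (((Icc 1 X).filter (fun m => SBa Y ξ υ a q m)).card : ℝ)) := by exact_mod_cast hkey
  set n : ℕ := a.natAbs * q with hn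
  have hs1 := one_le_sgs n
  have hsm : (X : ℝ) / t ≤ δ / 4 * x / Real.log Y ^ 2 * sgs n := by
    calc (X : ℝ) / t ≤ x / t := div_le_div_of_nonneg_right hXx ht0.le
      _ ≤ δ / 4 * x / Real.log Y ^ 2 := by
          rw [div_le_div_iff₀ ht0 (by positivity)]
          have h8 : Real.log Y ^ 2 ≤ δ / 16 * t := by
            have h9 := mul_le_mul_of_nonneg_left e1 (show 0 ≤ δ / 16 by positivity)
            calc Real.log Y ^ 2 = δ / 16 * (16 / δ * Real.log Y ^ 2) := by field_simp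
              _ ≤ _ := h9
          calc x * Real.log Y ^ 2 ≤ x * (δ / 16 * t) := mul_le_mul_of_nonneg_left h8 hx0.le
            _ ≤ δ / 4 * x * t := by
                have : 0 < δ * x * t := by positivity
                nlinarith
      _ ≤ δ / 4 * x / Real.log Y ^ 2 * sgs n := le_mul_of_one_le_right (by positivity) hs1
  have h10 : 0 < δ * x / Real.log Y ^ 2 * sgs n :=
    mul_pos (by positivity) (lt_of_lt_of_le one_pos hs1)
  have h11 : δ / 4 * x / Real.log Y ^ 2 * sgs n = δ * x / Real.log Y ^ 2 * sgs n / 4 := by ring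
  rw [h11] at hsm ⊢
  linarith

open Classical in
theorem blkA (r : ℕ) (θ τ ζ υ lam S : ℝ) (hθ0 : 0 < θ) (hθ1 : θ ≤ 1) (hζ0 : 0 < ζ)
    (h2 : 2 * ζ < τ) (h4 : τ ≤ 4 * ζ) (hτ2 : 1 / 2 ≤ τ) (hτ : τ < 1) (hζυ : ζ ≤ υ) (hυτ : υ < τ)
    (hlam : 0 < lam)
    (hJ0 : ∫ x in ζ..υ, (lam - lam / υ * x) / (τ - x) / x < Real.log (τ / ζ - 1) / τ)
    (hr : 1 / lam + S / υ ≤ r + 1) (ε : ℝ) (hε : 0 < ε) :
    ∃ δ : ℝ, 0 < δ ∧ ∃ Y0 : ℕ, ∀ Y : ℕ, Y0 ≤ Y → ∀ x : ℝ, (Y : ℝ) ^ θ ≤ x → x ≤ Y →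
      3 * (x * Y) ≤ (Y : ℝ) ^ S → ∀ a : ℤ, a ≠ 0 → a.natAbs ≤ Y →
      (((Ioc Y (2 * Y)).filter (fun q => Even (a.natAbs * q) ∧ a.natAbs.Coprime q ∧
        ((gpA r x ((Y : ℝ) ^ ζ) a q).card : ℝ) <
        δ * x / Real.log Y ^ 2 * sgs (a.natAbs * q))).card : ℝ) ≤
      (Y : ℝ) ^ (2 * τ - θ + ε) := by
  have hυ0 : 0 < υ := by linarith
  obtain ⟨δ, hδ, Y1, HD⟩ := dyadicA θ τ ζ υ lam (lam / υ) (ε / 2) hθ0 hθ1 hζ0 h2 h4 hτ2 hτ hζυ hυτ
    hlam.le (by positivity) (by rw [div_mul_cancel₀ _ hυ0.ne']) hJ0 (by linarith)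
  set s : ℝ := min (ε / 16) (ζ / 2) with hs
  have hs0 : 0 < s := lt_min (by linarith) (by linarith)
  have hsε : s ≤ ε / 16 := min_le_left _ _
  have hsζ : s ≤ ζ / 2 := min_le_right _ _
  obtain ⟨Y2, HP⟩ := passA r θ ζ υ lam S δ s hθ0 hθ1 hζ0 hζυ (by linarith) hlam hδ hs0
    (by linarith) hr
  set ξ : ℝ := max ζ (θ - 2 * s) with hξ
  have hξ0 : 0 < ξ := hζ0.trans_le (le_max_left _ _)
  obtain ⟨Y3, HS⟩ := shiftA ξ υ (ε / 8) hξ0 (by linarith) (by linarith)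
  have ev4 : ∀ᶠ Y : ℕ in atTop, (2 : ℝ) ≤ (Y : ℝ) ^ (ε / 2) :=
    ((tendsto_rpow_atTop (by linarith)).comp tendsto_natCast_atTop_atTop).eventually_ge_atTop _
  have ev5 : ∀ᶠ Y : ℕ in atTop, (4 : ℝ) ≤ (Y : ℝ) ^ θ :=
    ((tendsto_rpow_atTop hθ0).comp tendsto_natCast_atTop_atTop).eventually_ge_atTop _
  obtain ⟨Y4, hY4⟩ := eventually_atTop.1 (ev4.and (ev5.and (eventually_ge_atTop 3)))
  refine ⟨δ / 4, by positivity, max (max Y1 Y2) (max Y3 Y4), ?_⟩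
  intro Y hY x hYx hxY hxS a ha0 haY
  obtain ⟨e4, e5, e6⟩ := hY4 Y (((le_max_right _ _).trans (le_max_right _ _)).trans hY)
  have hY1 : Y1 ≤ Y := ((le_max_left _ _).trans (le_max_left _ _)).trans hY
  have hY2 : Y2 ≤ Y := ((le_max_right _ _).trans (le_max_left _ _)).trans hY
  have hY3 : Y3 ≤ Y := ((le_max_left _ _).trans (le_max_right _ _)).trans hY
  have hYr : (3 : ℝ) ≤ Y := by exact_mod_cast e6
  have hY0 : (0 : ℝ) < Y := by linarith
  have hY1r : (1 : ℝ) ≤ Y := by linarith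
  have hx0 : 0 < x := by linarith
  set X : ℕ := ⌊x⌋₊ with hX
  have hXx : (X : ℝ) ≤ x := Nat.floor_le hx0.le
  have hX1 : 1 ≤ X := Nat.le_floor (by push_cast; linarith)
  have hXY : X ≤ Y := by exact_mod_cast hXx.trans hxY
  set t : ℝ := (Y : ℝ) ^ s with ht
  have ht0 : 0 < t := by positivity
  set A1 := (Ioc Y (2 * Y)).filter (fun q => Even (a.natAbs * q) ∧ a.natAbs.Coprime q ∧
    (cnG x (fun m => WW Y ζ υ lam (lam / υ) (val a q m)) : ℝ) <
      δ * x / Real.log Y ^ 2 * sgs (a.natAbs * q)) with hA1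
  set A2 := (Ioc Y (2 * Y)).filter (fun q => (X : ℝ) / t <
      (((Icc 1 X).filter (fun m => SBa Y ξ υ a q m)).card : ℝ)) with hA2
  have hsub : (Ioc Y (2 * Y)).filter (fun q => Even (a.natAbs * q) ∧ a.natAbs.Coprime q ∧
        ((gpA r x ((Y : ℝ) ^ ζ) a q).card : ℝ) <
        δ / 4 * x / Real.log Y ^ 2 * sgs (a.natAbs * q)) ⊆ A1 ∪ A2 := by
    intro q hq
    rw [mem_filter, mem_Ioc] at hq
    obtain ⟨⟨hq1, hq2⟩, hev, hcop, hlt⟩ := hq
    rw [mem_union]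
    by_contra hcon
    push Not at hcon
    obtain ⟨hc1, hc2⟩ := hcon
    have g1 : δ * x / Real.log Y ^ 2 * sgs (a.natAbs * q) ≤
        (cnG x (fun m => WW Y ζ υ lam (lam / υ) (val a q m)) : ℝ) := by
      by_contra h'
      exact hc1 (by rw [hA1, mem_filter, mem_Ioc]; exact ⟨⟨hq1, hq2⟩, hev, hcop, not_le.1 h'⟩)
    have g2 : (((Icc 1 X).filter (fun m => SBa Y ξ υ a q m)).card : ℝ) ≤ (X : ℝ) / t := by
      by_contra h'
      exact hc2 (by rw [hA2, mem_filter, mem_Ioc]; exact ⟨⟨hq1, hq2⟩, not_le.1 h'⟩)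
    exact absurd (HP Y hY2 x hYx hxY hxS a q haY hcop hq1 hq2 g1 g2) (not_le.2 hlt)
  have u1 : (A1.card : ℝ) ≤ (Y : ℝ) ^ (2 * τ - θ + ε / 2) := by
    exact HD Y hY1 x hYx hxY a ha0 haY A1 (by
      intro q hq
      rw [hA1, mem_filter, mem_Ioc] at hq
      exact ⟨hq.1.1, hq.1.2, hq.2.1, hq.2.2.1, hq.2.2.2⟩)
  have u2 : (A2.card : ℝ) ≤ (Y : ℝ) ^ (2 * τ - θ + ε / 2) := by
    have h12 := HS Y hY3 X t a (by omega) hXY ht0 haY
    refine h12.trans ?_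
    rw [ht, ← Real.rpow_add hY0]
    apply Real.rpow_le_rpow_of_exponent_le hY1r
    have : θ - 2 * s ≤ ξ := le_max_right _ _
    linarith
  calc (((Ioc Y (2 * Y)).filter (fun q => Even (a.natAbs * q) ∧ a.natAbs.Coprime q ∧
        ((gpA r x ((Y : ℝ) ^ ζ) a q).card : ℝ) <
        δ / 4 * x / Real.log Y ^ 2 * sgs (a.natAbs * q))).card : ℝ) ≤ ((A1 ∪ A2).card : ℝ) := by
        exact_mod_cast card_le_card hsub
    _ ≤ A1.card + A2.card := by exact_mod_cast card_union_le _ _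
    _ ≤ 2 * (Y : ℝ) ^ (2 * τ - θ + ε / 2) := by linarith
    _ ≤ (Y : ℝ) ^ (ε / 2) * (Y : ℝ) ^ (2 * τ - θ + ε / 2) := by gcongr
    _ = (Y : ℝ) ^ (2 * τ - θ + ε) := by
        rw [← Real.rpow_add hY0]
        congr 1
        ring

end Pool.Agent.Y882.MQ
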