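import Pool.Agent.Y882.GW.Wt

/-! Universal weights of the weighted linear sieve, for `n ≤ Y ^ 3`. -/

set_option autoImplicit false

open Finset Filter

namespace Pool.Agent.Y882.MQ

open Pool.Agent.W23.DC
open Pool.Agent.Y882
open Pool.Agent.Y882.KW

/-- Mertens' formula for the densities `gn` -/
theorem mer_gn3 (ε₁ ζ η : ℝ) (hε : 0 < ε₁) (hζ : ζ ≤ 1) (hη : 0 < η) : ∃ Y0 : ℕ, ∀ Y : ℕ, Y0 ≤ Y →
    ∀ n : ℕ, 1 ≤ n → n ≤ Y ^ 3 → Mer (pr Y ε₁ ζ) (tt Y) (gn n) ε₁ ζ η := by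
  classical
  obtain ⟨N0, H⟩ := Pool.Agent.W378.DC.MP ε₁ (η / 2) hε (by positivity)
  have h1 : ∀ᶠ Y : ℕ in atTop, 2 * (3 * Real.log Y) / ((Y : ℝ) ^ ε₁ - 2) ≤ η / 2 := by
    have h2 : Tendsto (fun y : ℝ => 2 * (3 * Real.log y) / (y ^ ε₁ - 2)) atTop (nhds 0) := by
      have h3 : Tendsto (fun y : ℝ => Real.log y / y ^ ε₁) atTop (nhds 0) :=
        (isLittleO_log_rpow_atTop hε).tendsto_div_nhds_zero
      have h4 : Tendsto (fun y : ℝ => (y ^ ε₁)⁻¹) atTop (nhds 0) :=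
        (tendsto_rpow_atTop hε).inv_tendsto_atTop
      have h5 : Tendsto (fun y : ℝ => (2 * (3 * (Real.log y / y ^ ε₁))) /
          (1 - 2 * (y ^ ε₁)⁻¹)) atTop (nhds ((2 * (3 * 0)) / (1 - 2 * 0))) :=
        (((h3.const_mul 3).const_mul 2).div ((h4.const_mul 2).const_sub 1) (by norm_num))
      rw [show (2 * (3 * 0)) / (1 - 2 * (0 : ℝ)) = 0 by norm_num] at h5
      refine h5.congr' ?_
      filter_upwards [eventually_gt_atTop 0, (tendsto_rpow_atTop hε).eventually_gt_atTop 2]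
        with y hy hy2
      have h6 : (y ^ ε₁) ≠ 0 := by positivity
      have h7 : y ^ ε₁ - 2 ≠ 0 := by linarith
      field_simp
    exact tendsto_natCast_atTop_atTop.eventually (h2.eventually_le_const (by positivity))
  have h2 : ∀ᶠ Y : ℕ in atTop, (3 : ℝ) ≤ (Y : ℝ) ^ ε₁ :=
    tendsto_natCast_atTop_atTop.eventually ((tendsto_rpow_atTop hε).eventually_ge_atTop 3)
  obtain ⟨N1, hN1⟩ := eventually_atTop.1 (h1.and (h2.and (eventually_ge_atTop 2)))
  refine ⟨max N0 N1, fun Y hY n hn hnY => ?_⟩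
  obtain ⟨h3, h4, h5⟩ := hN1 Y ((le_max_right _ _).trans hY)
  intro a b ha hab hb
  have hYr : (2 : ℝ) ≤ Y := by exact_mod_cast h5
  have hlY : 0 < Real.log Y := Real.log_pos (by linarith)
  have hset : (pr Y ε₁ ζ).filter (fun p => a ≤ tt Y p ∧ tt Y p < b) = pr Y a b := by
    unfold pr
    rw [filter_filter]
    apply filter_congr
    intro p _
    constructor
    · rintro ⟨⟨h6, h7, h8⟩, h9, h10⟩
      exact ⟨h6, h9, h10⟩
    · rintro ⟨h6, h9, h10⟩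
      exact ⟨⟨h6, ha.trans h9, h10.trans_le hb⟩, h9, h10⟩
  rw [hset]
  have h6 := H Y ((le_max_left _ _).trans hY) a b ha hab (hb.trans hζ)
  have h7 : ∑ p ∈ pr Y a b, gn n p = ∑ p ∈ pr Y a b, 1 / ((p : ℝ) - 1) -
      ∑ p ∈ (pr Y a b).filter (fun p => p ∣ n), 1 / ((p : ℝ) - 1) := by
    rw [sum_filter, ← sum_sub_distrib]
    apply sum_congr rfl
    intro p _
    unfold gn
    split_ifs <;> simp
  have hlarge : ∀ p ∈ pr Y a b, p.Prime ∧ (Y : ℝ) ^ ε₁ ≤ p := by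
    intro p hp
    unfold pr at hp
    rw [mem_filter] at hp
    obtain ⟨h8, h9, h10, h11⟩ := hp
    refine ⟨h9, ?_⟩
    have hp0 : (0 : ℝ) < p := by exact_mod_cast h9.pos
    unfold tt at h10
    rw [le_div_iff₀ hlY] at h10
    rw [← Real.log_le_log_iff (by positivity) hp0, Real.log_rpow (by linarith)]
    nlinarith
  have h8 : ∑ p ∈ (pr Y a b).filter (fun p => p ∣ n), 1 / ((p : ℝ) - 1) ≤ η / 2 := by
    have h9 := big_pf n (Y ^ 3) hn ((Y : ℝ) ^ ε₁) h4 (by exact_mod_cast hnY)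
      ((pr Y a b).filter (fun p => p ∣ n)) (by
        intro p hp
        rw [mem_filter] at hp
        exact Nat.mem_primeFactors.2 ⟨(hlarge p hp.1).1, hp.2, by omega⟩)
      (fun p hp => (hlarge p (mem_filter.1 hp).1).2)
    push_cast at h9
    rw [Real.log_pow] at h9
    push_cast at h9
    refine le_trans ?_ (h9.trans h3)
    apply sum_le_sum
    intro p hp
    have := (hlarge p (mem_filter.1 hp).1).2
    exact one_div_le_one_div_of_le (by linarith) (by linarith)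
  have h9 : 0 ≤ ∑ p ∈ (pr Y a b).filter (fun p => p ∣ n), 1 / ((p : ℝ) - 1) := by
    apply sum_nonneg
    intro p hp
    have := (hlarge p (mem_filter.1 hp).1).2
    have : 0 < (p : ℝ) - 1 := by linarith
    positivity
  rw [h7]
  rw [abs_le] at h6 ⊢
  constructor <;> linarith [h6.1, h6.2]

open Classical in
theorem core3a (τ ζ υ aw bw τ' : ℝ) (hζ : 0 < ζ) (h2 : 2 * ζ < τ) (h4 : τ ≤ 4 * ζ)
    (hτ : τ ≤ 1) (hζυ : ζ ≤ υ) (hυτ : υ < τ) (ha : 0 ≤ aw) (hb : 0 ≤ bw) (hab : bw * υ ≤ aw)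
    (hJ0 : ∫ x in ζ..υ, (aw - bw * x) / (τ - x) / x < Real.log (τ / ζ - 1) / τ)
    (h5 : τ < τ') : ∃ c0 : ℝ, 0 < c0 ∧ ∃ Y0 : ℕ, ∀ Y : ℕ, Y0 ≤ Y → ∃ c : Finset ℕ → ℝ,
      (∀ T, |c T| ≤ 5 * Real.log Y) ∧
      (∀ T ⊆ PZ Y υ, c T ≠ 0 → ((∏ p ∈ T, p : ℕ) : ℝ) ≤ (Y : ℝ) ^ τ') ∧
      (∀ N : ℕ, VV (PZ Y υ) c (fun p => if p ∣ N then 1 else 0) ≤ WW Y ζ υ aw bw N) ∧
      ∀ n : ℕ, 1 ≤ n → n ≤ Y ^ 3 → Even n → c0 / Real.log Y * sgs n ≤ VV (PZ Y υ) c (gn n) := by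
  obtain ⟨ε₁, η, f, hε0, hεζ, -, hη, hf, Y0, HC⟩ :=
    core3 1 τ ζ υ aw bw τ' ζ hζ h2 h4 hτ hζυ hυτ ha hb hab hJ0 h5 hζ
  have hζ2 : ζ < 1 / 2 := by linarith
  have hυ1 : υ ≤ 1 := by linarith
  obtain ⟨Y1, hM⟩ := mer_gn3 ε₁ υ η hε0 hυ1 hη
  obtain ⟨cm, hcm, HP⟩ := prod_low
  obtain ⟨Y2, hJ⟩ := exJ ε₁ hε0
  have ev2 : ∀ᶠ Y : ℕ in atTop, (3 : ℝ) ≤ (Y : ℝ) ^ ε₁ :=
    tendsto_natCast_atTop_atTop.eventually ((tendsto_rpow_atTop hε0).eventually_ge_atTop 3)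
  have ev3 : ∀ᶠ Y : ℕ in atTop, 2 * (3 * Real.log Y) / ((Y : ℝ) ^ ε₁ - 2) ≤ 1 := by
    have h2 : Tendsto (fun y : ℝ => 2 * (3 * Real.log y) / (y ^ ε₁ - 2)) atTop (nhds 0) := by
      have h3 : Tendsto (fun y : ℝ => Real.log y / y ^ ε₁) atTop (nhds 0) :=
        (isLittleO_log_rpow_atTop hε0).tendsto_div_nhds_zero
      have h4 : Tendsto (fun y : ℝ => (y ^ ε₁)⁻¹) atTop (nhds 0) :=
        (tendsto_rpow_atTop hε0).inv_tendsto_atTop
      have h5 : Tendsto (fun y : ℝ => (2 * (3 * (Real.log y / y ^ ε₁))) /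
          (1 - 2 * (y ^ ε₁)⁻¹)) atTop (nhds ((2 * (3 * 0)) / (1 - 2 * 0))) :=
        (((h3.const_mul 3).const_mul 2).div ((h4.const_mul 2).const_sub 1) (by norm_num))
      rw [show (2 * (3 * 0)) / (1 - 2 * (0 : ℝ)) = 0 by norm_num] at h5
      refine h5.congr' ?_
      filter_upwards [eventually_gt_atTop 0, (tendsto_rpow_atTop hε0).eventually_gt_atTop 2]
        with y hy hy2
      have h6 : (y ^ ε₁) ≠ 0 := by positivity
      have h7 : y ^ ε₁ - 2 ≠ 0 := by linarith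
      field_simp
    exact tendsto_natCast_atTop_atTop.eventually (h2.eventually_le_const (by norm_num))
  obtain ⟨Y3, hY3⟩ := eventually_atTop.1 (ev2.and (ev3.and (eventually_ge_atTop 3)))
  refine ⟨cm * f * Real.log 2 / 2, by
    have := Real.log_pos (show (1 : ℝ) < 2 by norm_num)
    positivity, max (max Y0 Y1) (max Y2 Y3), ?_⟩
  intro Y hY
  have hYY0 : Y0 ≤ Y := ((le_max_left _ _).trans (le_max_left _ _)).trans hY
  have hYY1 : Y1 ≤ Y := ((le_max_right _ _).trans (le_max_left _ _)).trans hY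
  have hYY2 : Y2 ≤ Y := ((le_max_left _ _).trans (le_max_right _ _)).trans hY
  obtain ⟨e2, e3, e4⟩ := hY3 Y (((le_max_right _ _).trans (le_max_right _ _)).trans hY)
  obtain ⟨J, hJ1, hJ2⟩ := hJ Y hYY2
  obtain ⟨c, hc1, hc2, hc3, hc4⟩ := HC Y hYY0
  refine ⟨c, hc1, hc2, hc3, ?_⟩
  have hYr : (3 : ℝ) ≤ Y := by exact_mod_cast e4
  have hY1r : (1 : ℝ) ≤ Y := by linarith
  have hlY : 0 < Real.log Y := Real.log_pos (by linarith)
  have hl20 : 0 < Real.log 2 := Real.log_pos (by norm_num)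
  have hJlog : (2 : ℝ) ^ J * Real.log 2 ≤ 2 * ε₁ * Real.log Y := by
    have h6 := Real.log_le_log (by positivity) hJ2
    rw [Real.log_rpow (by linarith), Real.log_pow] at h6
    push_cast at h6
    exact h6
  have hPZ : ∀ w : ℝ, ∀ p, p ∈ PZ Y w → p.Prime ∧ p ≤ Y ∧ (p : ℝ) < (Y : ℝ) ^ w := by
    intro w p hp
    unfold PZ at hp
    rw [mem_filter, mem_Icc] at hp
    exact ⟨hp.2.1, hp.1.2, (tt_lt Y p w (by omega) hp.2.1.pos).1 hp.2.2⟩
  have hlt2 : ∀ p ∈ PZ Y ε₁, p < 2 ^ 2 ^ J := by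
    intro p hp
    have h6 := (hPZ ε₁ p hp).2.2.trans_le hJ1
    exact_mod_cast h6
  intro n hn1 hnY hev
  have hbig : ∑ p ∈ (n.primeFactors.erase 2).filter (fun p => p ∉ PZ Y ε₁),
      1 / ((p : ℝ) - 2) ≤ 1 := by
    have h6 := big_pf n (Y ^ 3) hn1 ((Y : ℝ) ^ ε₁) e2 (by exact_mod_cast hnY)
      ((n.primeFactors.erase 2).filter (fun p => p ∉ PZ Y ε₁))
      ((filter_subset _ _).trans (erase_subset _ _)) (by
        intro p hp
        rw [mem_filter, mem_erase] at hp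
        obtain ⟨⟨h7, h8⟩, h9⟩ := hp
        have hpp := Nat.prime_of_mem_primeFactors h8
        by_contra hc
        push Not at hc
        apply h9
        unfold PZ
        rw [mem_filter, mem_Icc]
        refine ⟨⟨hpp.pos, ?_⟩, hpp, (tt_lt Y p ε₁ (by omega) hpp.pos).2 hc⟩
        have h10 : (p : ℝ) ≤ Y := by
          refine hc.le.trans ?_
          calc (Y : ℝ) ^ ε₁ ≤ (Y : ℝ) ^ (1 : ℝ) :=
                Real.rpow_le_rpow_of_exponent_le hY1r (by linarith)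
            _ = Y := Real.rpow_one _
        exact_mod_cast h10)
    push_cast at h6
    rw [Real.log_pow] at h6
    push_cast at h6
    exact h6.trans e3
  have hV := HP J n (PZ Y ε₁) hn1 hev (fun p hp => ⟨(hPZ ε₁ p hp).1, hlt2 p hp⟩) hbig
  have hgn : ∀ p : ℕ, p.Prime → 0 ≤ gn n p ∧ gn n p ≤ 1 ∧ gn n p ≤ ((1 : ℕ) : ℝ) / ((p : ℝ) - 1) := by
    intro p hp
    have h6 : (2 : ℝ) ≤ p := by exact_mod_cast hp.two_le
    have h7 : 0 ≤ 1 / ((p : ℝ) - 1) := div_nonneg zero_le_one (by linarith)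
    have h8 : 1 / ((p : ℝ) - 1) ≤ 1 := by
      rw [div_le_one (by linarith)]
      linarith
    unfold gn
    push_cast
    split_ifs
    · exact ⟨le_rfl, zero_le_one, h7⟩
    · exact ⟨h7, h8, le_rfl⟩
  have hmain := hc4 (gn n) (fun p hp => (hgn p (hPZ υ p hp).1).1)
    (fun p hp => (hgn p (hPZ ε₁ p hp).1).2.1) (fun p hp _ => (hgn p (hPZ ε₁ p hp).1).2.2)
    (hM Y hYY1 n hn1 hnY)
  refine le_trans ?_ hmain
  have hs0 : 0 ≤ sgs n := zero_le_one.trans (one_le_sgs n)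
  have h10 : cm * f * Real.log 2 / 2 / Real.log Y ≤ f * (cm / 2 ^ J) := by
    rw [div_le_iff₀ hlY, mul_div_assoc', div_mul_eq_mul_div, le_div_iff₀ (by positivity)]
    have h11 : (2 : ℝ) ^ J * Real.log 2 ≤ 2 * Real.log Y := by
      refine hJlog.trans ?_
      have : ε₁ ≤ 1 := by linarith
      nlinarith
    calc cm * f * Real.log 2 / 2 * 2 ^ J = cm * f / 2 * (2 ^ J * Real.log 2) := by ring
      _ ≤ cm * f / 2 * (2 * Real.log Y) := mul_le_mul_of_nonneg_left h11 (by positivity)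
      _ = f * cm * Real.log Y := by ring
  calc cm * f * Real.log 2 / 2 / Real.log Y * sgs n ≤ f * (cm / 2 ^ J) * sgs n :=
        mul_le_mul_of_nonneg_right h10 hs0
    _ = f * (cm / 2 ^ J * sgs n) := by ring
    _ ≤ _ := mul_le_mul_of_nonneg_left hV hf.le

open Classical in
/-- the lower bound weights -/
theorem wts3 (τ ζ υ aw bw τ' : ℝ) (hζ : 0 < ζ) (h2 : 2 * ζ < τ) (h4 : τ ≤ 4 * ζ)
    (hτ : τ ≤ 1) (hζυ : ζ ≤ υ) (hυτ : υ < τ) (ha : 0 ≤ aw) (hb : 0 ≤ bw) (hab : bw * υ ≤ aw)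
    (hJ0 : ∫ x in ζ..υ, (aw - bw * x) / (τ - x) / x < Real.log (τ / ζ - 1) / τ)
    (h5 : τ < τ') : ∃ c0 : ℝ, 0 < c0 ∧ ∃ Y0 : ℕ, ∀ Y : ℕ, Y0 ≤ Y → ∃ c : ℕ → ℝ,
      (∀ d, |c d| ≤ 5 * Real.log Y) ∧
      (∀ d, c d ≠ 0 → Squarefree d ∧ (d : ℝ) ≤ (Y : ℝ) ^ τ') ∧
      (∀ N : ℕ, N ≠ 0 → ∑ d ∈ N.divisors, c d ≤ WW Y ζ υ aw bw N) ∧
      ∀ n : ℕ, 1 ≤ n → n ≤ Y ^ 3 → Even n → c0 / Real.log Y * sgs n ≤
        ∑ d ∈ (Icc 1 ⌊(Y : ℝ) ^ τ'⌋₊).filter (fun d => Nat.Coprime n d),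
          c d * (1 / (Nat.totient d : ℝ)) := by
  obtain ⟨c0, hc0, Y0, H⟩ := core3a τ ζ υ aw bw τ' hζ h2 h4 hτ hζυ hυτ ha hb hab hJ0 h5
  refine ⟨c0, hc0, max Y0 3, fun Y hY => ?_⟩
  have hY3 : 3 ≤ Y := (le_max_right _ _).trans hY
  have hYr : (3 : ℝ) ≤ Y := by exact_mod_cast hY3
  have hlY : 0 < Real.log Y := Real.log_pos (by linarith)
  obtain ⟨c, h6, h7, h8, h9⟩ := H Y ((le_max_left _ _).trans hY)
  set P := PZ Y υ with hP
  have hPp : ∀ p ∈ P, p.Prime := by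
    intro p hp
    rw [hP] at hp
    unfold PZ at hp
    rw [mem_filter] at hp
    exact hp.2.1
  -- truncated weights
  set c' : Finset ℕ → ℝ := fun T => if T ⊆ P then c T else 0 with hc'
  have hVVc : ∀ h, VV P c' h = VV P c h := by
    intro h
    apply VV_congr
    intro T hT
    simp only [hc']
    rw [if_pos hT]
  refine ⟨nw P c, ?_, ?_, ?_, ?_⟩
  · intro d
    unfold nw
    split_ifs
    · exact h6 _
    · rw [abs_zero]; positivity
  · intro d hd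
    unfold nw at hd
    split_ifs at hd with h10
    · refine ⟨h10.1, ?_⟩
      have h11 := h7 d.primeFactors h10.2 hd
      rw [Nat.prod_primeFactors_of_squarefree h10.1] at h11
      exact h11
    · exact absurd rfl hd
  · intro N hN
    have h10 := nw_sum P hPp c (fun d => if d ∣ N then 1 else 0) N.divisors (by
      intro T hT _ h11
      rw [Nat.mem_divisors]
      refine ⟨?_, hN⟩
      by_contra hc
      exact h11 (if_neg hc))
    have h11 : ∑ d ∈ N.divisors, nw P c d * (if d ∣ N then (1 : ℝ) else 0) =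
        ∑ d ∈ N.divisors, nw P c d := by
      apply sum_congr rfl
      intro d hd
      rw [if_pos (Nat.dvd_of_mem_divisors hd), mul_one]
    have h12 : VV P c (fun p => if p ∣ N then 1 else 0) =
        ∑ T ∈ P.powerset, c T * (if (∏ p ∈ T, p) ∣ N then (1 : ℝ) else 0) := by
      unfold VV
      apply sum_congr rfl
      intro T hT
      rw [prod_ind]
      congr 1
      have h1 : (∀ p ∈ T, p ∣ N) ↔ (∏ p ∈ T, p) ∣ N := by
        constructor
        · intro h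
          exact Finset.prod_primes_dvd N
            (fun p hp => (hPp p (mem_powerset.1 hT hp)).prime) h
        · intro h p hp
          exact (dvd_prod_of_mem (fun p => p) hp).trans h
      by_cases h2 : ∀ p ∈ T, p ∣ N
      · rw [if_pos h2, if_pos (h1.1 h2)]
      · rw [if_neg h2, if_neg (fun h => h2 (h1.2 h))]
    rw [← h11, ← h10, ← h12]
    exact h8 N
  · intro n hn1 hnY hev
    refine (h9 n hn1 hnY hev).trans (le_of_eq ?_)
    have h10 := nw_sum P hPp c (fun d => if Nat.Coprime n d then 1 / (Nat.totient d : ℝ) else 0)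
      ((Icc 1 ⌊(Y : ℝ) ^ τ'⌋₊).filter (fun d => Nat.Coprime n d)) (by
      intro T hT hcT h11
      rw [mem_filter, mem_Icc]
      refine ⟨⟨?_, ?_⟩, ?_⟩
      · refine Nat.pos_of_ne_zero (prod_ne_zero_iff.2 fun p hp => ?_)
        exact (hPp p (hT hp)).ne_zero
      · exact Nat.le_floor (h7 T hT hcT)
      · by_contra hc
        exact h11 (if_neg hc))
    have h11 : ∑ d ∈ (Icc 1 ⌊(Y : ℝ) ^ τ'⌋₊).filter (fun d => Nat.Coprime n d),
        nw P c d * (if Nat.Coprime n d then 1 / (Nat.totient d : ℝ) else 0) =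
        ∑ d ∈ (Icc 1 ⌊(Y : ℝ) ^ τ'⌋₊).filter (fun d => Nat.Coprime n d),
          nw P c d * (1 / (Nat.totient d : ℝ)) := by
      apply sum_congr rfl
      intro d hd
      rw [if_pos (mem_filter.1 hd).2]
    rw [← h11, ← h10]
    unfold VV
    apply sum_congr rfl
    intro T hT
    have hTp : ∀ p ∈ T, p.Prime := fun p hp => hPp p (mem_powerset.1 hT hp)
    congr 1
    have hpf : (∏ p ∈ T, p).primeFactors = T := Nat.primeFactors_prod hTp
    by_cases h12 : ∃ p ∈ T, p ∣ n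
    · obtain ⟨p, hp, hpn⟩ := h12
      rw [prod_eq_zero hp (by unfold gn; rw [if_pos hpn]), if_neg]
      intro hc
      have h13 : p ∣ ∏ p ∈ T, p := dvd_prod_of_mem (fun p => p) hp
      have h14 := Nat.dvd_gcd hpn h13
      rw [hc] at h14
      have := (hTp p hp).one_lt
      have := Nat.le_of_dvd one_pos h14
      omega
    · push Not at h12
      have h13 : Nat.Coprime n (∏ p ∈ T, p) := by
        apply Nat.Coprime.prod_right
        intro p hp
        exact ((Nat.Prime.coprime_iff_not_dvd (hTp p hp)).2 (h12 p hp)).symm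
      rw [if_pos h13, tot_sqf _ (sqf_prod T hTp), hpf, one_div, ← prod_inv_distrib]
      apply prod_congr rfl
      intro p hp
      unfold gn
      rw [if_neg (h12 p hp), one_div]

end Pool.Agent.Y882.MQ
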