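import Pool.Agent.Y882.MQ.Err
import Pool.Agent.Y882.MQ.Wt

/-! The pointwise lower bound for a weighted sum over `m q + a`. -/

set_option autoImplicit false

open Finset Filter Topology

namespace Pool.Agent.Y882.MQ

open Pool.Agent.Y882
open Pool.Agent.H410R2
open Pool.Agent.Helper112 Pool.Agent.Helper112.BLB
open Pool.Agent.H732R2.B2 (Sc)

/-- the value `m q + a` -/
def val (a : ℤ) (q m : ℕ) : ℕ := ((m : ℤ) * q + a).toNat

theorem val_spec (a : ℤ) (q m : ℕ) (haq : a.natAbs < q) (hm : 1 ≤ m) :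
    val a q m ≠ 0 ∧ ((val a q m : ℕ) : ℤ) = (m : ℤ) * q + a := by
  have h1 : (0 : ℤ) < (m : ℤ) * q + a := by
    have h2 : (q : ℤ) ≤ (m : ℤ) * q := by
      have : q ≤ m * q := Nat.le_mul_of_pos_left q hm
      exact_mod_cast this
    have h3 : -(q : ℤ) < a := by omega
    linarith
  have h4 : ((val a q m : ℕ) : ℤ) = (m : ℤ) * q + a := by
    unfold val
    exact Int.toNat_of_nonneg h1.le
  refine ⟨?_, h4⟩
  intro h
  rw [h] at h4
  simp only [Nat.cast_zero] at h4
  linarith

theorem val_dvd (a : ℤ) (q m p : ℕ) (hp : p.Prime) (hcop : a.natAbs.Coprime q)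
    (h : (p : ℤ) ∣ (m : ℤ) * q + a) (h2 : p ∣ a.natAbs * q) : p ∣ m := by
  have hnot : ¬ (p ∣ a.natAbs ∧ p ∣ q) := by
    rintro ⟨h3, h4⟩
    have h5 := Nat.dvd_gcd h3 h4
    rw [hcop] at h5
    exact hp.one_lt.ne' (Nat.dvd_one.1 h5)
  have hint : Prime (p : ℤ) := Nat.prime_iff_prime_int.1 hp
  rcases (Nat.Prime.dvd_mul hp).1 h2 with h3 | h3
  · have h4 : (p : ℤ) ∣ a := Int.natCast_dvd.2 h3
    have h5 : (p : ℤ) ∣ (m : ℤ) * q := (Int.dvd_add_left h4).1 h
    rcases hint.dvd_or_dvd h5 with h6 | h6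
    · exact_mod_cast h6
    · exfalso
      exact hnot ⟨h3, by exact_mod_cast h6⟩
  · have h4 : (p : ℤ) ∣ (q : ℤ) := by exact_mod_cast h3
    have h5 : (p : ℤ) ∣ a := (Int.dvd_add_right (h4.mul_left _)).1 h
    exfalso
    exact hnot ⟨Int.natCast_dvd.1 h5, h3⟩

open Classical in
/-- the sifted sum -/
noncomputable def TG (x : ℝ) (g : ℕ → ℝ) : ℝ :=
  ∑ m ∈ Icc 1 ⌊x⌋₊, al x m * g m

open Classical in
/-- the number of primes `p` in `(x / 2, x)` such that the weight is positive at `p` -/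
noncomputable def cnG (x : ℝ) (g : ℕ → ℝ) : ℕ :=
  ((Icc 1 ⌊x⌋₊).filter (fun p : ℕ => p.Prime ∧ x / 2 < p ∧ (p : ℝ) < x ∧ 0 < g p)).card

theorem TG_le (x : ℝ) (g : ℕ → ℝ) (hw : ∀ N, g N ≤ 1) (hx : 1 ≤ x) :
    TG x g ≤ Real.log x * cnG x g + 2 * √x * Real.log x := by
  classical
  have h0 : 0 ≤ Real.log x := Real.log_nonneg hx
  have hx0 : 0 < x := by linarith
  have h1 : TG x g ≤ ∑ m ∈ Icc 1 ⌊x⌋₊, ((if m.Prime ∧ x / 2 < m ∧ (m : ℝ) < x ∧
      (0 < g m) then Real.log x else 0) +
      (if ¬ m.Prime then al x m else 0)) := by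
    unfold TG
    apply sum_le_sum
    intro m hm
    rw [mem_Icc] at hm
    have hm0 : (0 : ℝ) < m := by exact_mod_cast hm.1
    have hmx : (m : ℝ) ≤ x := (Nat.le_floor_iff hx0.le).1 hm.2
    have hal0 := al_nonneg x hx0 m hm.1
    obtain ⟨c1, c2, c3, c4, c5⟩ := tw_cases x hx0 m hm.1
    by_cases hr : 0 < g m
    · have hw1 : al x m * g m ≤ al x m := by
        calc al x m * g m ≤ al x m * 1 := mul_le_mul_of_nonneg_left (hw _) hal0
          _ = al x m := mul_one _
      refine hw1.trans ?_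
      by_cases hp : m.Prime
      · rw [if_neg (not_not.2 hp), add_zero]
        by_cases h3 : x / 2 < m ∧ (m : ℝ) < x
        · rw [if_pos ⟨hp, h3.1, h3.2, hr⟩]
          exact (al_le x hx0 m hm.1).trans
            (ArithmeticFunction.vonMangoldt_le_log.trans (Real.log_le_log hm0 hmx))
        · have h4 : tw x m = 0 := by
            by_contra hne
            apply h3
            constructor
            · by_contra h5
              push Not at h5
              exact hne (c3 h5)
            · by_contra h5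
              push Not at h5
              exact hne (c4 h5)
          have h5 : al x m = 0 := by unfold al; rw [h4, mul_zero]
          rw [h5]
          split_ifs
          · exact h0
          · exact le_rfl
      · rw [if_pos hp]
        have : (0 : ℝ) ≤ (if m.Prime ∧ x / 2 < m ∧ (m : ℝ) < x ∧
          (0 < g m) then Real.log x else 0) := by
          split_ifs
          · exact h0
          · exact le_rfl
        linarith
    · refine le_trans (mul_nonpos_of_nonneg_of_nonpos hal0 (not_lt.1 hr)) ?_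
      apply add_nonneg
      · split_ifs
        · exact h0
        · exact le_rfl
      · split_ifs
        · exact le_rfl
        · exact hal0
  refine h1.trans ?_
  rw [sum_add_distrib, ← sum_filter, ← sum_filter, sum_const, nsmul_eq_mul]
  have h2 := al_pp x hx
  unfold cnG
  linarith

theorem lowA (x : ℝ) (w : ℕ → ℝ) (a : ℤ) (q n D : ℕ) (hn : n = a.natAbs * q) (c : ℕ → ℝ)
    (K B R R' : ℝ) (hx1 : 1 ≤ x) (haq : a.natAbs < q) (hcop : a.natAbs.Coprime q)
    (hK0 : 0 ≤ K) (hK : ∀ d, |c d| ≤ K) (hc : ∀ d, c d ≠ 0 → Squarefree d ∧ d ≤ D)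
    (hN : ∀ N : ℕ, N ≠ 0 → ∑ d ∈ N.divisors, c d ≤ w N)
    (hB : ∀ m ∈ Icc 1 ⌊x⌋₊, ((val a q m).divisors.card : ℝ) ≤ B)
    (hR : ∀ g : ℕ, 1 ≤ g → g ≤ D →
      ∑ b ∈ (Icc 1 ⌊x⌋₊).filter (fun b => ¬ b.Coprime g), |al x b| ≤ R) (hR0 : 0 ≤ R)
    (hR' : ∑ b ∈ (Icc 1 ⌊x⌋₊).filter (fun b => ¬ b.Coprime n), |al x b| ≤ R') :
    ∑ d ∈ (Icc 1 D).filter (fun d => Nat.Coprime n d), c d * Ea ⌊x⌋₊ (al x) a d q +
      (∑ m ∈ Icc 1 ⌊x⌋₊, al x m) * ∑ d ∈ (Icc 1 D).filter (fun d => Nat.Coprime n d),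
        c d * (1 / (Nat.totient d : ℝ)) - K * (Sc 1 D * R + B * R') ≤ TG x (fun m => w (val a q m)) := by
  classical
  set X := ⌊x⌋₊ with hX
  have hx0 : 0 < x := by linarith
  have hval : ∀ m ∈ Icc 1 X, val a q m ≠ 0 ∧ ((val a q m : ℕ) : ℤ) = (m : ℤ) * q + a := by
    intro m hm
    rw [mem_Icc] at hm
    exact val_spec a q m haq hm.1
  have hal0 : ∀ m ∈ Icc 1 X, 0 ≤ al x m := fun m hm => al_nonneg x hx0 m (mem_Icc.1 hm).1
  -- step 1: the sieve inequality
  have s1 : ∑ m ∈ Icc 1 X, al x m * ∑ d ∈ (val a q m).divisors, c d ≤ TG x (fun m => w (val a q m)) := by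
    unfold TG
    apply sum_le_sum
    intro m hm
    apply mul_le_mul_of_nonneg_left _ (hal0 m hm)
    exact hN (val a q m) (hval m hm).1
  -- step 2: separate the moduli
  have s2 : ∀ m ∈ Icc 1 X, al x m * ∑ d ∈ (val a q m).divisors, c d ≥
      al x m * ∑ d ∈ (val a q m).divisors.filter (fun d => Nat.Coprime n d), c d -
        (if ¬ m.Coprime n then |al x m| * (K * B) else 0) := by
    intro m hm
    have hm1 := hm
    rw [mem_Icc] at hm1
    obtain ⟨hv0, hv1⟩ := hval m hm
    have e1 : ∑ d ∈ (val a q m).divisors, c d =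
        ∑ d ∈ (val a q m).divisors.filter (fun d => Nat.Coprime n d), c d +
        ∑ d ∈ (val a q m).divisors.filter (fun d => ¬ Nat.Coprime n d), c d := by
      rw [sum_filter_add_sum_filter_not]
    rw [e1, mul_add]
    by_cases hcopm : m.Coprime n
    · have e2 : (val a q m).divisors.filter (fun d => ¬ Nat.Coprime n d) = ∅ := by
        rw [filter_eq_empty_iff]
        intro d hd hnd
        obtain ⟨p, hp, hpn, hpd⟩ := Nat.Prime.not_coprime_iff_dvd.1 hnd
        have h3 : p ∣ val a q m := hpd.trans (Nat.dvd_of_mem_divisors hd)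
        have h4 : p ∣ m := val_dvd a q m p hp hcop (by rw [← hv1]; exact_mod_cast h3)
          (by rw [← hn]; exact hpn)
        have h5 := Nat.dvd_gcd h4 hpn
        rw [hcopm] at h5
        have := hp.one_lt
        have := Nat.le_of_dvd one_pos h5
        omega
      rw [e2, sum_empty, mul_zero, if_neg (by simpa using hcopm)]
      simp
    · rw [if_pos hcopm]
      have h3 : |∑ d ∈ (val a q m).divisors.filter (fun d => ¬ Nat.Coprime n d), c d| ≤ K * B := by
        refine (abs_sum_le_sum_abs _ _).trans ?_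
        calc ∑ d ∈ (val a q m).divisors.filter (fun d => ¬ Nat.Coprime n d), |c d| ≤
            ∑ d ∈ (val a q m).divisors, |c d| :=
              sum_le_sum_of_subset_of_nonneg (filter_subset _ _) fun _ _ _ => abs_nonneg _
          _ ≤ ∑ d ∈ (val a q m).divisors, K := sum_le_sum fun d _ => hK d
          _ = ((val a q m).divisors.card : ℝ) * K := by rw [sum_const, nsmul_eq_mul]
          _ ≤ B * K := mul_le_mul_of_nonneg_right (hB m hm) hK0
          _ = K * B := mul_comm _ _
      have h4 := (abs_le.1 h3).1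
      have h5 := mul_le_mul_of_nonneg_left h4 (hal0 m hm)
      rw [abs_of_nonneg (hal0 m hm)]
      linarith
  have s3 : ∑ m ∈ Icc 1 X, al x m * ∑ d ∈ (val a q m).divisors.filter (fun d => Nat.Coprime n d), c d -
      K * B * R' ≤ ∑ m ∈ Icc 1 X, al x m * ∑ d ∈ (val a q m).divisors, c d := by
    have h3 := sum_le_sum s2
    rw [sum_sub_distrib, ← sum_filter, ← sum_mul] at h3
    have hB0 : 0 ≤ B := (Nat.cast_nonneg _).trans (hB 1 (by
      rw [mem_Icc]
      exact ⟨le_rfl, Nat.le_floor (by exact_mod_cast hx1)⟩))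
    have h4 : (∑ m ∈ (Icc 1 X).filter (fun m => ¬ m.Coprime n), |al x m|) * (K * B) ≤
        R' * (K * B) := mul_le_mul_of_nonneg_right hR' (mul_nonneg hK0 hB0)
    linarith
  -- step 3: exchange the sums
  have s4 : ∑ m ∈ Icc 1 X, al x m * ∑ d ∈ (val a q m).divisors.filter (fun d => Nat.Coprime n d), c d =
      ∑ d ∈ (Icc 1 D).filter (fun d => Nat.Coprime n d),
        c d * ∑ m ∈ (Icc 1 X).filter (fun m : ℕ => (d : ℤ) ∣ (m : ℤ) * q + a), al x m := by
    have h3 : ∀ m ∈ Icc 1 X, al x m *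
        ∑ d ∈ (val a q m).divisors.filter (fun d => Nat.Coprime n d), c d =
        ∑ d ∈ (Icc 1 D).filter (fun d => Nat.Coprime n d),
          (if (d : ℤ) ∣ (m : ℤ) * q + a then c d * al x m else 0) := by
      intro m hm
      obtain ⟨hv0, hv1⟩ := hval m hm
      rw [← sum_filter, mul_sum]
      have h4 : ∑ d ∈ (val a q m).divisors.filter (fun d => Nat.Coprime n d), al x m * c d =
          ∑ d ∈ ((val a q m).divisors.filter (fun d => Nat.Coprime n d)).filter (fun d => c d ≠ 0),
            al x m * c d := by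
        symm
        apply sum_filter_of_ne
        intro d _ h
        exact (mul_ne_zero_iff.1 h).2
      have h5 : ∑ d ∈ ((Icc 1 D).filter (fun d => Nat.Coprime n d)).filter
          (fun d : ℕ => (d : ℤ) ∣ (m : ℤ) * q + a), c d * al x m =
          ∑ d ∈ (((Icc 1 D).filter (fun d => Nat.Coprime n d)).filter
          (fun d : ℕ => (d : ℤ) ∣ (m : ℤ) * q + a)).filter (fun d => c d ≠ 0), c d * al x m := by
        symm
        apply sum_filter_of_ne
        intro d _ h
        exact (mul_ne_zero_iff.1 h).1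
      rw [h4, h5]
      have h6 : ((val a q m).divisors.filter (fun d => Nat.Coprime n d)).filter (fun d => c d ≠ 0) =
          (((Icc 1 D).filter (fun d => Nat.Coprime n d)).filter
          (fun d : ℕ => (d : ℤ) ∣ (m : ℤ) * q + a)).filter (fun d => c d ≠ 0) := by
        ext d
        simp only [mem_filter, mem_Icc, Nat.mem_divisors]
        constructor
        · rintro ⟨⟨⟨h7, h8⟩, h9⟩, h10⟩
          refine ⟨⟨⟨⟨?_, (hc d h10).2⟩, h9⟩, ?_⟩, h10⟩
          · exact Nat.pos_of_dvd_of_pos h7 (Nat.pos_of_ne_zero h8)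
          · rw [← hv1]; exact_mod_cast h7
        · rintro ⟨⟨⟨⟨h7, h8⟩, h9⟩, h10⟩, h11⟩
          rw [← hv1] at h10
          exact ⟨⟨⟨by exact_mod_cast h10, hv0⟩, h9⟩, h11⟩
      rw [h6]
      exact sum_congr rfl fun d _ => mul_comm _ _
    rw [sum_congr rfl h3, sum_comm]
    apply sum_congr rfl
    intro d _
    rw [mul_sum, sum_filter]
  -- step 4: the main term
  have s5 : ∀ d ∈ (Icc 1 D).filter (fun d => Nat.Coprime n d),
      c d * Ea X (al x) a d q + (∑ m ∈ Icc 1 X, al x m) * (c d * (1 / (Nat.totient d : ℝ))) -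
        (if Squarefree d then K * R * (1 ^ d.primeFactors.card / (Nat.totient d : ℝ)) else 0) ≤
      c d * ∑ m ∈ (Icc 1 X).filter (fun m : ℕ => (d : ℤ) ∣ (m : ℤ) * q + a), al x m := by
    intro d hd
    rw [mem_filter, mem_Icc] at hd
    have hφ : (0 : ℝ) < Nat.totient d := by exact_mod_cast Nat.totient_pos.2 hd.1.1
    have e1 : ∑ m ∈ (Icc 1 X).filter (fun m : ℕ => (d : ℤ) ∣ (m : ℤ) * q + a), al x m = Ea X (al x) a d q +
        1 / (Nat.totient d : ℝ) * (∑ m ∈ Icc 1 X, al x m -
          ∑ m ∈ (Icc 1 X).filter (fun m => ¬ m.Coprime d), al x m) := by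
      have e2 : ∑ m ∈ Icc 1 X, al x m = ∑ m ∈ (Icc 1 X).filter (fun m => m.Coprime d), al x m +
          ∑ m ∈ (Icc 1 X).filter (fun m => ¬ m.Coprime d), al x m := by
        rw [sum_filter_add_sum_filter_not]
      rw [e2]
      unfold Ea
      ring
    have e3 : 0 ≤ ∑ m ∈ (Icc 1 X).filter (fun m => ¬ m.Coprime d), al x m :=
      sum_nonneg fun m hm => hal0 m (mem_filter.1 hm).1
    have e4 : ∑ m ∈ (Icc 1 X).filter (fun m => ¬ m.Coprime d), al x m ≤ R := by
      refine le_trans (sum_le_sum fun m _ => le_abs_self _) (hR d hd.1.1 hd.1.2)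
    rw [e1]
    set Q := ∑ m ∈ (Icc 1 X).filter (fun m => ¬ m.Coprime d), al x m with hQ
    have e5 : c d * (1 / (Nat.totient d : ℝ)) * Q ≤
        (if Squarefree d then K * R * (1 ^ d.primeFactors.card / (Nat.totient d : ℝ)) else 0) := by
      split_ifs with hs
      · have e6 : c d ≤ K := (le_abs_self _).trans (hK d)
        rw [one_pow]
        calc c d * (1 / (Nat.totient d : ℝ)) * Q ≤ K * (1 / (Nat.totient d : ℝ)) * Q := by
              gcongr
          _ ≤ K * (1 / (Nat.totient d : ℝ)) * R := by gcongr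
          _ = _ := by ring
      · have : c d = 0 := by
          by_contra hne
          exact hs (hc d hne).1
        rw [this]
        simp
    have e7 : c d * (Ea X (al x) a d q + 1 / (Nat.totient d : ℝ) * (∑ m ∈ Icc 1 X, al x m - Q)) =
        c d * Ea X (al x) a d q + (∑ m ∈ Icc 1 X, al x m) * (c d * (1 / (Nat.totient d : ℝ))) -
        c d * (1 / (Nat.totient d : ℝ)) * Q := by ring
    rw [e7]
    linarith
  have s6 := sum_le_sum s5
  rw [sum_sub_distrib, sum_add_distrib, ← mul_sum] at s6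
  have s7 : ∑ d ∈ (Icc 1 D).filter (fun d => Nat.Coprime n d),
      (if Squarefree d then K * R * (1 ^ d.primeFactors.card / (Nat.totient d : ℝ)) else 0) ≤
      K * R * Sc 1 D := by
    have h3 : ∀ d : ℕ, 0 ≤ (if Squarefree d then
        K * R * (1 ^ d.primeFactors.card / (Nat.totient d : ℝ)) else 0) := by
      intro d
      split_ifs
      · exact mul_nonneg (mul_nonneg hK0 hR0) (by positivity)
      · exact le_rfl
    refine (sum_le_sum_of_subset_of_nonneg (filter_subset _ _) (fun d _ _ => h3 d)).trans ?_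
    unfold Sc
    rw [← sum_filter, ← mul_sum]
  rw [s4] at s3
  linarith

end Pool.Agent.Y882.MQ
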