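import Pool.Agent.Y882.MQ.Blk
import Pool.Agent.Y882.GX.Sm

/-! Almost primes in a small residue class to almost all moduli: the theorem. -/

set_option autoImplicit false

namespace Pool.Agent.Y882.MQ

open Finset Filter
open Pool.Agent.W23.DC
open Pool.Agent.Y882
open Pool.Agent.Y882.PX
open Pool.Agent.Y882.KW
open Pool.Agent.Y882.SI
open Pool.Agent.Y882.GW

open Classical in
/-- `k` is a prime (if `a q` is even) or twice a prime (if `a q` is odd), `q ^ θ / 4 < k < q ^ θ`,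
and `k q + a` has at most `r` prime factors, all at least `q ^ ζ / 2` -/
noncomputable def smallA (r : ℕ) (θ ζ : ℝ) (a : ℤ) (q : ℕ) : ℕ :=
  ((range (q + 1)).filter (fun k : ℕ =>
    ((Even (a.natAbs * q) ∧ k.Prime) ∨
      (¬ Even (a.natAbs * q) ∧ ∃ p : ℕ, p.Prime ∧ k = 2 * p)) ∧
    (q : ℝ) ^ θ / 4 < k ∧ (k : ℝ) < (q : ℝ) ^ θ ∧
    ((k : ℤ) * q + a).natAbs.primeFactorsList.length ≤ r ∧
    ∀ l : ℕ, l.Prime → l ∣ ((k : ℤ) * q + a).natAbs → (q : ℝ) ^ ζ / 2 ≤ l)).card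

theorem val_natAbs (a : ℤ) (q m : ℕ) (haq : a.natAbs < q) (hm : 1 ≤ m) :
    ((m : ℤ) * q + a).natAbs = val a q m := by
  obtain ⟨_, h⟩ := val_spec a q m haq hm
  rw [← h, Int.natAbs_natCast]

theorem sgs_two (n : ℕ) (hn : n ≠ 0) : sgs (2 * n) = sgs n := by
  unfold sgs
  have h1 : (2 * n).primeFactors.erase 2 = n.primeFactors.erase 2 := by
    rw [Nat.primeFactors_mul (by norm_num) hn, Nat.Prime.primeFactors Nat.prime_two]
    ext p
    simp only [mem_erase, mem_union, mem_singleton]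
    constructor
    · rintro ⟨h1, h2 | h2⟩
      · exact absurd h2 h1
      · exact ⟨h1, h2⟩
    · rintro ⟨h1, h2⟩
      exact ⟨h1, Or.inr h2⟩
  rw [h1]

/-- the inclusion, `a q` even -/
theorem inc_even (r : ℕ) (θ ζ : ℝ) (hθ0 : 0 < θ) (hθ1 : θ ≤ 1) (hζ0 : 0 ≤ ζ) (hζ1 : ζ ≤ 1)
    (Y q : ℕ) (a : ℤ) (hY : 1 ≤ Y) (haY : a.natAbs ≤ Y) (h2 : Y < q) (h3 : q ≤ 2 * Y)
    (hev : Even (a.natAbs * q)) :
    (gpA r ((Y : ℝ) ^ θ) ((Y : ℝ) ^ ζ) a q).card ≤ smallA r θ ζ a q := by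
  classical
  have hYr : (1 : ℝ) ≤ Y := by exact_mod_cast hY
  have h13 : (Y : ℝ) < q := by exact_mod_cast h2
  have h2θ := GX.pw_two θ hθ0.le hθ1 Y q h3
  have h2ζ := GX.pw_two ζ hζ0 hζ1 Y q h3
  have h3θ : (Y : ℝ) ^ θ ≤ (q : ℝ) ^ θ :=
    Real.rpow_le_rpow (by positivity) h13.le (by linarith)
  unfold gpA smallA
  apply card_le_card
  intro p hp
  rw [mem_filter] at hp ⊢
  obtain ⟨h7, h8, h8', h9, h10, h11⟩ := hp
  have hna := val_natAbs a q p (by omega) (mem_Icc.1 h7).1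
  have h14 : (p : ℝ) < q := by
    refine h9.trans (lt_of_le_of_lt ?_ h13)
    calc (Y : ℝ) ^ θ ≤ (Y : ℝ) ^ (1 : ℝ) :=
          Real.rpow_le_rpow_of_exponent_le (by linarith) hθ1
      _ = Y := Real.rpow_one _
  have h15 : p < q := by exact_mod_cast h14
  refine ⟨mem_range.2 (by omega), Or.inl ⟨hev, h8⟩, by linarith, by linarith, by rw [hna]; exact h10,
    fun l hl hln => ?_⟩
  rw [hna] at hln
  have := h11 l hl hln
  linarith

/-- the inclusion, `a q` odd -/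
theorem inc_odd (r : ℕ) (θ ζ : ℝ) (hθ0 : 0 < θ) (hθ1 : θ ≤ 1) (hζ0 : 0 ≤ ζ) (hζ1 : ζ ≤ 1)
    (Y q : ℕ) (a : ℤ) (hY : 1 ≤ Y) (haY : a.natAbs ≤ Y) (h2 : Y < q) (h3 : q ≤ 2 * Y)
    (hev : ¬ Even (a.natAbs * q)) :
    (gpA r ((Y : ℝ) ^ θ / 2) (((2 * Y : ℕ) : ℝ) ^ ζ) a (2 * q)).card ≤ smallA r θ ζ a q := by
  classical
  have hYr : (1 : ℝ) ≤ Y := by exact_mod_cast hY
  have h13 : (Y : ℝ) < q := by exact_mod_cast h2
  have h2θ := GX.pw_two θ hθ0.le hθ1 Y q h3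
  have h3θ : (Y : ℝ) ^ θ ≤ (q : ℝ) ^ θ :=
    Real.rpow_le_rpow (by positivity) h13.le (by linarith)
  have h3ζ : (q : ℝ) ^ ζ ≤ (((2 * Y : ℕ) : ℝ)) ^ ζ :=
    Real.rpow_le_rpow (by positivity) (by exact_mod_cast h3) hζ0
  have hq0 : (0 : ℝ) ≤ (q : ℝ) ^ ζ := by positivity
  unfold gpA smallA
  apply card_le_card_of_injOn (fun p => 2 * p)
  · intro p hp
    rw [Finset.mem_coe, mem_filter] at hp
    change 2 * p ∈ (range (q + 1)).filter _
    rw [mem_filter]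
    obtain ⟨h7, h8, h8', h9, h10, h11⟩ := hp
    have hna := val_natAbs a (2 * q) p (by omega) (mem_Icc.1 h7).1
    have hna2 : (((2 * p : ℕ) : ℤ) * q + a).natAbs = val a (2 * q) p := by
      rw [← hna]
      congr 1
      push_cast
      ring
    have h14 : ((2 * p : ℕ) : ℝ) < q := by
      push_cast
      have h15 : 2 * (p : ℝ) < (Y : ℝ) ^ θ := by linarith
      refine h15.trans (lt_of_le_of_lt ?_ h13)
      calc (Y : ℝ) ^ θ ≤ (Y : ℝ) ^ (1 : ℝ) :=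
            Real.rpow_le_rpow_of_exponent_le (by linarith) hθ1
        _ = Y := Real.rpow_one _
    have h15 : 2 * p < q := by exact_mod_cast h14
    refine ⟨mem_range.2 (by omega), Or.inr ⟨hev, p, h8, rfl⟩, ?_, ?_, by rw [hna2]; exact h10,
      fun l hl hln => ?_⟩
    · push_cast
      linarith
    · push_cast
      linarith
    · rw [hna2] at hln
      have := h11 l hl hln
      linarith
  · intro p _ p' _ h
    have h' : 2 * p = 2 * p' := h
    omega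

open Classical in
theorem blkC (r : ℕ) (θ τ c ε : ℝ) (hr : 25 * (1 + θ) < (24 * r - 3) * τ) (hτ2 : 1 / 2 ≤ τ)
    (hτ : τ < 1) (hθ0 : 0 < θ) (hθ1 : θ ≤ 1) (hc0 : 0 ≤ c) (hc1 : c < 1) (hε : 0 < ε)
    (hε1 : ε ≤ 1) :
    ∃ δ : ℝ, 0 < δ ∧ ∃ Y0 : ℕ, ∀ Y : ℕ, Y0 ≤ Y →
      (((Ioc Y (2 * Y)).filter (fun q : ℕ => ∃ a : ℤ, a ≠ 0 ∧ (a.natAbs : ℝ) ≤ (q : ℝ) ^ c ∧
        a.natAbs.Coprime q ∧ (smallA r θ (τ / 4) a q : ℝ) <
          δ * sgs (a.natAbs * q) * ((q : ℝ) ^ θ / Real.log q ^ 2))).card : ℝ) ≤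
      (Y : ℝ) ^ (2 * τ - θ + c + ε) := by
  set κ : ℝ := min (ε / 8) (θ / 2) with hκ
  have hκ0 : 0 < κ := lt_min (by linarith) (by linarith)
  have hκε : κ ≤ ε / 8 := min_le_left _ _
  have hκθ : κ ≤ θ / 2 := min_le_right _ _
  set S : ℝ := (24 * r - 3) * τ / 25 with hS
  have hS1 : 1 + θ < S := by rw [hS, lt_div_iff₀ (by norm_num)]; linarith
  obtain ⟨δ, hδ, Y1, H⟩ := blkA r (θ - κ) τ (τ / 4) (24 / 25 * τ) (8 / 9) S (by linarith)
    (by linarith) (by linarith) (by linarith) (by linarith) hτ2 hτ (by linarith) (by linarith)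
    (by norm_num) (cond_A τ (8 / 9) (by linarith) (by norm_num) (by norm_num))
    (by
      rw [hS]
      have : τ ≠ 0 := by linarith
      field_simp
      norm_num
      linarith) (ε / 4) (by linarith)
  have ev1 : ∀ᶠ Y : ℕ in atTop, (4 : ℝ) ≤ (Y : ℝ) ^ κ :=
    ((tendsto_rpow_atTop hκ0).comp tendsto_natCast_atTop_atTop).eventually_ge_atTop _
  have ev2 : ∀ᶠ Y : ℕ in atTop, (3 : ℝ) ≤ (Y : ℝ) ^ (S - (1 + θ)) :=
    ((tendsto_rpow_atTop (by linarith)).comp tendsto_natCast_atTop_atTop).eventually_ge_atTop _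
  have ev3 : ∀ᶠ Y : ℕ in atTop, (2 : ℝ) ≤ (Y : ℝ) ^ (1 - c) :=
    ((tendsto_rpow_atTop (by linarith)).comp tendsto_natCast_atTop_atTop).eventually_ge_atTop _
  have ev4 : ∀ᶠ Y : ℕ in atTop, (100 : ℝ) ≤ (Y : ℝ) ^ (ε / 4) :=
    ((tendsto_rpow_atTop (by linarith)).comp tendsto_natCast_atTop_atTop).eventually_ge_atTop _
  obtain ⟨Y2, hY2⟩ := eventually_atTop.1
    (ev1.and (ev2.and (ev3.and (ev4.and (eventually_ge_atTop 3)))))
  refine ⟨δ / 16, by positivity, max Y1 Y2, fun Y hY => ?_⟩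
  obtain ⟨e1, e2, e3, e4, e5⟩ := hY2 Y ((le_max_right _ _).trans hY)
  have hY1 : Y1 ≤ Y := (le_max_left _ _).trans hY
  have hYr : (3 : ℝ) ≤ Y := by exact_mod_cast e5
  have hY0 : (0 : ℝ) < Y := by linarith
  have hY1r : (1 : ℝ) ≤ Y := by linarith
  have hlY : 0 < Real.log Y := Real.log_pos (by linarith)
  -- the range of the classes
  set M : ℕ := ⌊(2 * (Y : ℝ)) ^ c⌋₊ with hM
  have hMle : (M : ℝ) ≤ (2 * (Y : ℝ)) ^ c := Nat.floor_le (by positivity)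
  have h2c : (2 * (Y : ℝ)) ^ c ≤ 2 * (Y : ℝ) ^ c := by
    rw [Real.mul_rpow (by norm_num) hY0.le]
    apply mul_le_mul_of_nonneg_right _ (by positivity)
    calc (2 : ℝ) ^ c ≤ 2 ^ (1 : ℝ) := Real.rpow_le_rpow_of_exponent_le (by norm_num) hc1.le
      _ = 2 := Real.rpow_one _
  have hMY : M ≤ Y := by
    have h1 : (M : ℝ) ≤ Y := by
      refine hMle.trans (h2c.trans ?_)
      calc 2 * (Y : ℝ) ^ c ≤ (Y : ℝ) ^ (1 - c) * (Y : ℝ) ^ c := by gcongr
        _ = Y := by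
            rw [← Real.rpow_add hY0]
            simp
    exact_mod_cast h1
  -- the two kinds of exceptional sets
  set x : ℝ := (Y : ℝ) ^ θ with hx
  have hx4 : (Y : ℝ) ^ (θ - κ) * 4 ≤ x := by
    have h1 : x = (Y : ℝ) ^ (θ - κ) * (Y : ℝ) ^ κ := by
      rw [hx, ← Real.rpow_add hY0]
      congr 1
      ring
    rw [h1]
    exact mul_le_mul_of_nonneg_left e1 (by positivity)
  have hp0 : 0 < (Y : ℝ) ^ (θ - κ) := by positivity
  have hxY : x ≤ Y := by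
    calc (Y : ℝ) ^ θ ≤ (Y : ℝ) ^ (1 : ℝ) := Real.rpow_le_rpow_of_exponent_le hY1r hθ1
      _ = Y := Real.rpow_one _
  have hxS : 3 * (x * Y) ≤ (Y : ℝ) ^ S := by
    have h1 : (Y : ℝ) ^ S = (Y : ℝ) ^ (S - (1 + θ)) * (x * Y) := by
      rw [hx]
      nth_rw 4 [← Real.rpow_one (Y : ℝ)]
      rw [← Real.rpow_add hY0, ← Real.rpow_add hY0]
      congr 1
      ring
    rw [h1]
    exact mul_le_mul_of_nonneg_right e2 (by positivity)
  have h2Y : (((2 * Y : ℕ) : ℝ)) = 2 * Y := by push_cast; rfl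
  have h2κ : (((2 * Y : ℕ) : ℝ)) ^ (θ - κ) ≤ 2 * (Y : ℝ) ^ (θ - κ) := by
    rw [h2Y, Real.mul_rpow (by norm_num) hY0.le]
    apply mul_le_mul_of_nonneg_right _ (by positivity)
    calc (2 : ℝ) ^ (θ - κ) ≤ 2 ^ (1 : ℝ) :=
          Real.rpow_le_rpow_of_exponent_le (by norm_num) (by linarith)
      _ = 2 := Real.rpow_one _
  have hxS2 : 3 * (x / 2 * ((2 * Y : ℕ) : ℝ)) ≤ (((2 * Y : ℕ) : ℝ)) ^ S := by
    calc 3 * (x / 2 * ((2 * Y : ℕ) : ℝ)) = 3 * (x * Y) := by rw [h2Y]; ring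
      _ ≤ (Y : ℝ) ^ S := hxS
      _ ≤ _ := by
          apply Real.rpow_le_rpow hY0.le _ (by linarith)
          rw [h2Y]
          linarith
  set Ev : ℤ → Finset ℕ := fun a => (Ioc Y (2 * Y)).filter (fun q => Even (a.natAbs * q) ∧
    a.natAbs.Coprime q ∧ ((gpA r x ((Y : ℝ) ^ (τ / 4)) a q).card : ℝ) <
        δ * x / Real.log Y ^ 2 * sgs (a.natAbs * q)) with hEv
  set Od : ℤ → Finset ℕ := fun a => (Ioc (2 * Y) (2 * (2 * Y))).filter (fun q =>
    Even (a.natAbs * q) ∧ a.natAbs.Coprime q ∧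
      ((gpA r (x / 2) (((2 * Y : ℕ) : ℝ) ^ (τ / 4)) a q).card : ℝ) <
        δ * (x / 2) / Real.log ((2 * Y : ℕ) : ℝ) ^ 2 * sgs (a.natAbs * q)) with hOd
  set E : ℝ := 2 * τ - (θ - κ) + ε / 4 with hE
  have hE0 : 0 ≤ E := by linarith
  have hE3 : E ≤ 3 := by linarith
  -- the numbers of exceptions
  have hEvc : ∀ a : ℤ, a ≠ 0 → a.natAbs ≤ M → ((Ev a).card : ℝ) ≤ (Y : ℝ) ^ E := by
    intro a ha haM
    exact H Y hY1 x (by linarith) hxY hxS a ha (by omega)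
  have hOdc : ∀ a : ℤ, a ≠ 0 → a.natAbs ≤ M → ((Od a).card : ℝ) ≤ 8 * (Y : ℝ) ^ E := by
    intro a ha haM
    have h1 := H (2 * Y) (by omega) (x / 2) (by linarith) (by rw [h2Y]; linarith) hxS2 a ha
      (by omega)
    refine h1.trans ?_
    rw [h2Y, Real.mul_rpow (by norm_num) hY0.le]
    apply mul_le_mul_of_nonneg_right _ (by positivity)
    calc (2 : ℝ) ^ E ≤ 2 ^ (3 : ℝ) := Real.rpow_le_rpow_of_exponent_le (by norm_num) hE3
      _ = 8 := by norm_num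
  set B : Finset ℤ := (Icc (-(M : ℤ)) M).filter (fun a => a ≠ 0) with hB
  have hBm : ∀ a ∈ B, a ≠ 0 ∧ a.natAbs ≤ M := by
    intro a ha
    rw [hB, mem_filter, mem_Icc] at ha
    exact ⟨ha.2, by omega⟩
  have hBc : (B.card : ℝ) ≤ 5 * (Y : ℝ) ^ c := by
    have h1 : B.card ≤ 2 * M + 1 := by
      refine (card_filter_le _ _).trans ?_
      rw [Int.card_Icc]
      omega
    have h2 : (B.card : ℝ) ≤ 2 * M + 1 := by exact_mod_cast h1
    have h3 : (1 : ℝ) ≤ (Y : ℝ) ^ c := Real.one_le_rpow hY1r hc0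
    linarith
  have hcmp : ∀ q : ℕ, Y < q → q ≤ 2 * Y → (q : ℝ) ^ θ / Real.log q ^ 2 ≤
      2 * x / Real.log Y ^ 2 := by
    intro q h2 h3
    have h13 : (Y : ℝ) < q := by exact_mod_cast h2
    apply div_le_div₀ (by positivity) (GX.pw_two θ hθ0.le hθ1 Y q h3) (by positivity)
    exact pow_le_pow_left₀ hlY.le (Real.log_le_log hY0 h13.le) 2
  have hlog2 : Real.log ((2 * Y : ℕ) : ℝ) ≤ 2 * Real.log Y := by
    rw [h2Y, Real.log_mul (by norm_num) hY0.ne']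
    have : Real.log 2 ≤ Real.log Y := Real.log_le_log (by norm_num) (by linarith)
    linarith
  have hlog20 : 0 < Real.log ((2 * Y : ℕ) : ℝ) := by
    rw [h2Y]
    exact Real.log_pos (by linarith)
  have hsub : (Ioc Y (2 * Y)).filter (fun q : ℕ => ∃ a : ℤ, a ≠ 0 ∧ (a.natAbs : ℝ) ≤ (q : ℝ) ^ c ∧
        a.natAbs.Coprime q ∧ (smallA r θ (τ / 4) a q : ℝ) <
          δ / 16 * sgs (a.natAbs * q) * ((q : ℝ) ^ θ / Real.log q ^ 2)) ⊆
      B.biUnion (fun a => Ev a ∪ (Od a).image (fun q => q / 2)) := by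
    intro q hq
    rw [mem_filter, mem_Ioc] at hq
    obtain ⟨⟨hq1, hq2⟩, a, ha0, hac, hcop, hlt⟩ := hq
    have haM : a.natAbs ≤ M := by
      apply Nat.le_floor
      refine hac.trans (Real.rpow_le_rpow (by positivity) ?_ hc0)
      exact_mod_cast hq2
    have hsg : 1 ≤ sgs (a.natAbs * q) := one_le_sgs _
    rw [mem_biUnion]
    refine ⟨a, by rw [hB, mem_filter, mem_Icc]; exact ⟨by omega, ha0⟩, ?_⟩
    rw [mem_union]
    have hq' := hcmp q hq1 hq2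
    by_cases hev : Even (a.natAbs * q)
    · left
      rw [hEv, mem_filter, mem_Ioc]
      refine ⟨⟨hq1, hq2⟩, hev, hcop, ?_⟩
      have h7 : ((gpA r x ((Y : ℝ) ^ (τ / 4)) a q).card : ℝ) ≤ smallA r θ (τ / 4) a q := by
        exact_mod_cast inc_even r θ (τ / 4) hθ0 hθ1 (by linarith) (by linarith) Y q a (by omega)
          (by omega) hq1 hq2 hev
      refine h7.trans_lt (hlt.trans_le ?_)
      calc δ / 16 * sgs (a.natAbs * q) * ((q : ℝ) ^ θ / Real.log q ^ 2) ≤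
          δ / 16 * sgs (a.natAbs * q) * (2 * x / Real.log Y ^ 2) := by gcongr
        _ = 1 / 8 * (δ * x / Real.log Y ^ 2 * sgs (a.natAbs * q)) := by ring
        _ ≤ 1 * (δ * x / Real.log Y ^ 2 * sgs (a.natAbs * q)) := by
            apply mul_le_mul_of_nonneg_right (by norm_num)
            positivity
        _ = _ := one_mul _
    · right
      rw [mem_image]
      refine ⟨2 * q, ?_, by omega⟩
      have hodd := Nat.not_even_iff_odd.1 hev
      have hao : Odd a.natAbs := Nat.Odd.of_mul_left hodd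
      rw [hOd, mem_filter, mem_Ioc]
      have hsg2 : sgs (a.natAbs * (2 * q)) = sgs (a.natAbs * q) := by
        rw [show a.natAbs * (2 * q) = 2 * (a.natAbs * q) by ring]
        apply sgs_two
        exact mul_ne_zero (Int.natAbs_ne_zero.2 ha0) (by omega)
      refine ⟨⟨by omega, by omega⟩, ?_, ?_, ?_⟩
      · rw [show a.natAbs * (2 * q) = 2 * (a.natAbs * q) by ring]
        exact even_two_mul _
      · exact Nat.Coprime.mul_right hao.coprime_two_right hcop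
      rw [hsg2]
      have h7 : ((gpA r (x / 2) (((2 * Y : ℕ) : ℝ) ^ (τ / 4)) a (2 * q)).card : ℝ) ≤
          smallA r θ (τ / 4) a q := by
        exact_mod_cast inc_odd r θ (τ / 4) hθ0 hθ1 (by linarith) (by linarith) Y q a (by omega)
          (by omega) hq1 hq2 hev
      refine h7.trans_lt (hlt.trans_le ?_)
      calc δ / 16 * sgs (a.natAbs * q) * ((q : ℝ) ^ θ / Real.log q ^ 2) ≤
          δ / 16 * sgs (a.natAbs * q) * (2 * x / Real.log Y ^ 2) := by gcongr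
        _ = (δ * (x / 2)) / (2 * Real.log Y) ^ 2 * sgs (a.natAbs * q) := by
            field_simp
            ring
        _ ≤ δ * (x / 2) / Real.log ((2 * Y : ℕ) : ℝ) ^ 2 * sgs (a.natAbs * q) := by
            apply mul_le_mul_of_nonneg_right _ (by linarith)
            apply div_le_div_of_nonneg_left (by positivity) (by positivity)
            exact pow_le_pow_left₀ hlog20.le hlog2 2
  calc _ ≤ ((B.biUnion (fun a => Ev a ∪ (Od a).image (fun q => q / 2))).card : ℝ) := by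
        exact_mod_cast card_le_card hsub
    _ ≤ ((∑ a ∈ B, (Ev a ∪ (Od a).image (fun q => q / 2)).card : ℕ) : ℝ) := by
        exact_mod_cast card_biUnion_le
    _ ≤ ∑ a ∈ B, (9 * (Y : ℝ) ^ E) := by
        push_cast
        apply sum_le_sum
        intro a ha
        obtain ⟨h1, h2⟩ := hBm a ha
        have h3 : (Ev a ∪ (Od a).image (fun q => q / 2)).card ≤ (Ev a).card + (Od a).card :=
          (card_union_le _ _).trans (Nat.add_le_add_left card_image_le _)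
        have h4 : ((Ev a ∪ (Od a).image (fun q => q / 2)).card : ℝ) ≤
            (Ev a).card + (Od a).card := by exact_mod_cast h3
        have h5 := hEvc a h1 h2
        have h6 := hOdc a h1 h2
        linarith
    _ = B.card * (9 * (Y : ℝ) ^ E) := by rw [sum_const, nsmul_eq_mul]
    _ ≤ (5 * (Y : ℝ) ^ c) * (9 * (Y : ℝ) ^ E) := mul_le_mul_of_nonneg_right hBc (by positivity)
    _ = 45 * ((Y : ℝ) ^ c * (Y : ℝ) ^ E) := by ring
    _ ≤ (Y : ℝ) ^ (ε / 4) * ((Y : ℝ) ^ c * (Y : ℝ) ^ E) := by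
        apply mul_le_mul_of_nonneg_right (by linarith) (by positivity)
    _ = (Y : ℝ) ^ (ε / 4 + (c + E)) := by rw [← Real.rpow_add hY0, ← Real.rpow_add hY0]
    _ ≤ _ := Real.rpow_le_rpow_of_exponent_le hY1r (by linarith)

open Classical in
/-- **Every small class, almost all moduli.** -/
theorem fixedClass (r : ℕ) (θ τ c ε : ℝ) (hr : 25 * (1 + θ) < (24 * r - 3) * τ) (hτ2 : 1 / 2 ≤ τ)
    (hτ : τ < 1) (hθ0 : 0 < θ) (hθ1 : θ ≤ 1) (hc0 : 0 ≤ c) (hc1 : c < 1) (hε : 0 < ε) :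
    ∃ δ C : ℝ, 0 < δ ∧ 0 < C ∧ ∀ X : ℕ, 1 ≤ X →
      (((Icc 1 X).filter (fun q : ℕ => ∃ a : ℤ, a ≠ 0 ∧ (a.natAbs : ℝ) ≤ (q : ℝ) ^ c ∧
        a.natAbs.Coprime q ∧ (smallA r θ (τ / 4) a q : ℝ) <
          δ * sgs (a.natAbs * q) * ((q : ℝ) ^ θ / Real.log q ^ 2))).card : ℝ) ≤
      C * (X : ℝ) ^ (2 * τ - θ + c + ε) := by
  have hm0 : 0 < min ε 1 := lt_min hε one_pos
  obtain ⟨δ, hδ, Y0, H⟩ := blkC r θ τ c (min ε 1) hr hτ2 hτ hθ0 hθ1 hc0 hc1 hm0 (min_le_right _ _)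
  obtain ⟨C, hC, hcum⟩ := Pool.Agent.Y882.cum (fun q : ℕ => ∃ a : ℤ, a ≠ 0 ∧
    (a.natAbs : ℝ) ≤ (q : ℝ) ^ c ∧ a.natAbs.Coprime q ∧ (smallA r θ (τ / 4) a q : ℝ) <
      δ * sgs (a.natAbs * q) * ((q : ℝ) ^ θ / Real.log q ^ 2))
    (2 * τ - θ + c + min ε 1) (by linarith) Y0 H
  refine ⟨δ, C, hδ, hC, fun X hX => (hcum X hX).trans ?_⟩
  apply mul_le_mul_of_nonneg_left _ hC.le
  apply Real.rpow_le_rpow_of_exponent_le (by exact_mod_cast hX)
  linarith [min_le_left ε 1]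

end Pool.Agent.Y882.MQ
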