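import Pool.Agent.Y882.MQ.Low
import Pool.Agent.Y882.GX.Blk2

/-! Squares of medium primes dividing `m q + a`: pointwise for the small ones, on average over `q`
for the large ones. -/

set_option autoImplicit false

namespace Pool.Agent.Y882.MQ

open Finset Filter
open Pool.Agent.W23.DC
open Pool.Agent.Y882
open Pool.Agent.Y882.PX
open Pool.Agent.Y882.KW
open Pool.Agent.Y882.SI
open Pool.Agent.Y882.GW

/-- a square of a medium prime divides `m q + a` -/
def SBa (Y : ℕ) (ζ υ : ℝ) (a : ℤ) (q m : ℕ) : Prop := ∃ l ∈ pr Y ζ υ, l ^ 2 ∣ val a q m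

theorem class_lin (d q : ℕ) (hq : q.Coprime d) (a : ℤ) :
    ∃ b : ℤ, ∀ m : ℤ, (d : ℤ) ∣ m * q + a → (d : ℤ) ∣ m - b := by
  obtain ⟨u, v, h⟩ := Nat.isCoprime_iff_coprime.2 hq
  refine ⟨-(a * u), fun m hm => ?_⟩
  have h1 : m - -(a * u) = (m * q + a) * u + m * v * d := by
    linear_combination (-m) * h
  rw [h1]
  exact dvd_add (hm.mul_right _) (dvd_mul_left _ _)

open Classical in
/-- small squares, pointwise -/
theorem medA (ζ ξ : ℝ) (hζ : 0 < ζ) (hξ : ξ ≤ 1) : ∃ Y0 : ℕ, ∀ Y : ℕ, Y0 ≤ Y →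
    ∀ (X q : ℕ) (a : ℤ), a.natAbs < q → a.natAbs.Coprime q →
      (((Icc 1 X).filter (fun m => SBa Y ζ ξ a q m)).card : ℝ) ≤
        X * (2 / (Y : ℝ) ^ ζ) + (Y : ℝ) ^ ξ := by
  obtain ⟨Y0, H⟩ := pr_sq ζ ξ hζ hξ
  refine ⟨max Y0 2, fun Y hY X q a haq hcop => ?_⟩
  obtain ⟨g1, g2⟩ := H Y ((le_max_left _ _).trans hY)
  have hY2 : 2 ≤ Y := (le_max_right _ _).trans hY
  have hX0 : (0 : ℝ) ≤ X := Nat.cast_nonneg _
  have hsub : (Icc 1 X).filter (fun m => SBa Y ζ ξ a q m) ⊆ (pr Y ζ ξ).biUnion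
      (fun l => (Icc 1 X).filter (fun m : ℕ => ((l ^ 2 : ℕ) : ℤ) ∣ (m : ℤ) * q + a)) := by
    intro m hm
    rw [mem_filter] at hm
    obtain ⟨hm1, l, hl, hld⟩ := hm
    rw [mem_biUnion]
    refine ⟨l, hl, ?_⟩
    rw [mem_filter]
    refine ⟨hm1, ?_⟩
    rw [← (val_spec a q m haq (mem_Icc.1 hm1).1).2]
    exact_mod_cast hld
  calc (((Icc 1 X).filter (fun m => SBa Y ζ ξ a q m)).card : ℝ) ≤
      ((∑ l ∈ pr Y ζ ξ, ((Icc 1 X).filter
        (fun m : ℕ => ((l ^ 2 : ℕ) : ℤ) ∣ (m : ℤ) * q + a)).card : ℕ) : ℝ) := by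
        exact_mod_cast (card_le_card hsub).trans card_biUnion_le
    _ ≤ ∑ l ∈ pr Y ζ ξ, (X * (1 / (l : ℝ) ^ 2) + 1) := by
        push_cast
        apply sum_le_sum
        intro l hl
        obtain ⟨hl1, _, hl3⟩ := pr_mem Y l ζ ξ hY2 hl
        by_cases hlq : l ∣ q
        · have : (Icc 1 X).filter (fun m : ℕ => (l : ℤ) ^ 2 ∣ (m : ℤ) * q + a) = ∅ := by
            apply filter_eq_empty_iff.2
            intro m _ h
            have h1 : (l : ℤ) ∣ (m : ℤ) * q + a := (dvd_pow_self _ (by norm_num)).trans h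
            have h2 : (l : ℤ) ∣ (q : ℤ) := by exact_mod_cast hlq
            have h3 : (l : ℤ) ∣ a := (Int.dvd_add_right (h2.mul_left _)).1 h1
            have h4 := Nat.dvd_gcd (Int.natCast_dvd.1 h3) hlq
            rw [hcop] at h4
            exact hl1.one_lt.ne' (Nat.dvd_one.1 h4)
          rw [this]
          simp only [card_empty, Nat.cast_zero]
          positivity
        · have hc : q.Coprime (l ^ 2) :=
            (Nat.Coprime.pow_left 2 ((Nat.Prime.coprime_iff_not_dvd hl1).2 hlq)).symm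
          obtain ⟨b, hb⟩ := class_lin (l ^ 2) q hc a
          have h5 := class_count (l ^ 2) (pow_pos hl1.pos 2) X b
          have h6 : ((Icc 1 X).filter (fun m : ℕ => (l : ℤ) ^ 2 ∣ (m : ℤ) * q + a)).card ≤
              ((Icc 1 X).filter (fun m : ℕ => ((l ^ 2 : ℕ) : ℤ) ∣ (m : ℤ) - b)).card := by
            apply card_le_card
            intro m hm
            rw [mem_filter] at hm ⊢
            exact ⟨hm.1, hb m (by push_cast; exact hm.2)⟩
          have h7 : (((Icc 1 X).filter (fun m : ℕ => (l : ℤ) ^ 2 ∣ (m : ℤ) * q + a)).card : ℝ) ≤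
              ((Icc 1 X).filter (fun m : ℕ => ((l ^ 2 : ℕ) : ℤ) ∣ (m : ℤ) - b)).card := by
            exact_mod_cast h6
          refine h7.trans (h5.trans (le_of_eq ?_))
          push_cast
          ring
    _ = X * ∑ q ∈ pr Y ζ ξ, 1 / (q : ℝ) ^ 2 + (pr Y ζ ξ).card := by
        rw [sum_add_distrib, ← mul_sum, sum_const, nsmul_eq_mul, mul_one]
    _ ≤ _ := add_le_add (mul_le_mul_of_nonneg_left g1 (by positivity)) g2

theorem val_le (a : ℤ) (q m X Y : ℕ) (hY : 3 ≤ Y) (hm1 : 1 ≤ m) (hmX : m ≤ X) (hXY : X ≤ Y)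
    (haY : a.natAbs ≤ Y) (hq1 : Y < q) (hq2 : q ≤ 2 * Y) :
    val a q m ≤ 3 * (X * Y) ∧ m * q ≤ Y ^ 3 := by
  obtain ⟨h0, h1⟩ := val_spec a q m (by omega) hm1
  have h2 : m * q ≤ X * (2 * Y) := Nat.mul_le_mul hmX hq2
  have hX1 : 1 ≤ X := hm1.trans hmX
  have h3 : Y ≤ X * Y := Nat.le_mul_of_pos_left Y hX1
  constructor
  · have h4 : ((val a q m : ℕ) : ℤ) ≤ ((3 * (X * Y) : ℕ) : ℤ) := by
      rw [h1]
      have h5 : a ≤ (Y : ℤ) := by omega
      have h6 : (m : ℤ) * q ≤ (X : ℤ) * (2 * Y) := by exact_mod_cast h2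
      have h7 : (Y : ℤ) ≤ (X : ℤ) * Y := by exact_mod_cast h3
      push_cast
      linarith
    exact_mod_cast h4
  · calc m * q ≤ X * (2 * Y) := h2
      _ ≤ Y * (Y * Y) := Nat.mul_le_mul hXY (Nat.mul_le_mul_right _ (by omega))
      _ = Y ^ 3 := by ring

open Classical in
/-- large squares, on average -/
theorem shiftA (ξ υ κ : ℝ) (hξ : 0 < ξ) (hυ : υ ≤ 1) (hκ : 0 < κ) : ∃ Y0 : ℕ, ∀ Y : ℕ, Y0 ≤ Y →
    ∀ (X : ℕ) (t : ℝ) (a : ℤ), 0 < X → X ≤ Y → 0 < t → a.natAbs ≤ Y →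
    (((Ioc Y (2 * Y)).filter (fun q => (X : ℝ) / t <
      (((Icc 1 X).filter (fun m => SBa Y ξ υ a q m)).card : ℝ))).card : ℝ) ≤
      t * (Y : ℝ) ^ (1 - ξ + κ) := by
  obtain ⟨Y0, H⟩ := pr_sq ξ υ hξ hυ
  obtain ⟨Cd, hCd, HCd⟩ := Pool.Agent.Helper112.divisor_bound (κ / 6) (by linarith)
  have ev1 : ∀ᶠ Y : ℕ in atTop, 6 * Cd ≤ (Y : ℝ) ^ (κ / 2) :=
    ((tendsto_rpow_atTop (by linarith)).comp tendsto_natCast_atTop_atTop).eventually_ge_atTop _
  obtain ⟨Y1, hY1⟩ := eventually_atTop.1 (ev1.and (eventually_ge_atTop 3))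
  refine ⟨max Y0 Y1, fun Y hY X t a hX hXY ht haY => ?_⟩
  obtain ⟨g1, g2⟩ := H Y ((le_max_left _ _).trans hY)
  obtain ⟨e1, e2⟩ := hY1 Y ((le_max_right _ _).trans hY)
  have hY2 : 2 ≤ Y := by omega
  have hY0 : (0 : ℝ) < Y := by exact_mod_cast (by omega : 0 < Y)
  have hXr : (0 : ℝ) < X := by exact_mod_cast hX
  set A := (Ioc Y (2 * Y)).filter (fun q => (X : ℝ) / t <
      (((Icc 1 X).filter (fun m => SBa Y ξ υ a q m)).card : ℝ)) with hA
  have h1 : (A.card : ℝ) * (X / t) ≤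
      ∑ q ∈ Ioc Y (2 * Y), (((Icc 1 X).filter (fun m => SBa Y ξ υ a q m)).card : ℝ) := by
    calc (A.card : ℝ) * (X / t) = ∑ n ∈ A, (X / t : ℝ) := by rw [sum_const, nsmul_eq_mul]
      _ ≤ ∑ n ∈ A, (((Icc 1 X).filter (fun m => SBa Y ξ υ a n m)).card : ℝ) := by
          apply sum_le_sum
          intro n hn
          rw [hA, mem_filter] at hn
          exact hn.2.le
      _ ≤ _ := sum_le_sum_of_subset_of_nonneg (filter_subset _ _) (fun _ _ _ => Nat.cast_nonneg _)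
  set T := (Ioc Y (2 * Y) ×ˢ Icc 1 X).filter (fun z => SBa Y ξ υ a z.1 z.2) with hT
  have h2 : ∑ q ∈ Ioc Y (2 * Y), (((Icc 1 X).filter (fun m => SBa Y ξ υ a q m)).card : ℝ) =
      T.card := by
    rw [hT, card_filter, sum_product]
    push_cast
    apply sum_congr rfl
    intro q _
    rw [card_filter]
    push_cast
    rfl
  set B : ℝ := Cd * (Y : ℝ) ^ (κ / 2) with hB
  have hB0 : 0 ≤ B := by positivity
  have hTm : ∀ z ∈ T, Y < z.1 ∧ z.1 ≤ 2 * Y ∧ 1 ≤ z.2 ∧ z.2 ≤ X ∧ SBa Y ξ υ a z.1 z.2 := by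
    intro z hz
    rw [hT, mem_filter, mem_product, mem_Ioc, mem_Icc] at hz
    exact ⟨hz.1.1.1, hz.1.1.2, hz.1.2.1, hz.1.2.2, hz.2⟩
  have h3 : T.card ≤ ⌊B⌋₊ * (T.image (fun z => val a z.1 z.2)).card := by
    apply card_le_mul_card_image
    intro v _
    apply Nat.le_floor
    by_cases hemp : T.filter (fun z => val a z.1 z.2 = v) = ∅
    · rw [hemp]
      simpa using hB0
    · obtain ⟨z0, hz0⟩ := nonempty_iff_ne_empty.2 hemp
      rw [mem_filter] at hz0
      obtain ⟨c1, c2, c3, c4, _⟩ := hTm z0 hz0.1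
      set w : ℕ := z0.2 * z0.1 with hw
      have hw1 : 1 ≤ w := Nat.mul_pos c3 (by omega)
      have hwY : w ≤ Y ^ 3 := (val_le a z0.1 z0.2 X Y e2 c3 c4 hXY haY c1 c2).2
      have hmul : ∀ z ∈ T.filter (fun z => val a z.1 z.2 = v), z.2 * z.1 = w := by
        intro z hz
        rw [mem_filter] at hz
        obtain ⟨d1, d2, d3, d4, _⟩ := hTm z hz.1
        have e3 := (val_spec a z.1 z.2 (by omega) d3).2
        have e4 := (val_spec a z0.1 z0.2 (by omega) c3).2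
        rw [hz.2] at e3
        rw [hz0.2] at e4
        have e5 : (z.2 : ℤ) * z.1 = (z0.2 : ℤ) * z0.1 := by linarith
        exact_mod_cast e5
      have h4 : (T.filter (fun z => val a z.1 z.2 = v)).card ≤ w.divisors.card := by
        apply card_le_card_of_injOn (fun z => z.1)
        · intro z hz
          change z.1 ∈ w.divisors
          rw [Nat.mem_divisors]
          exact ⟨⟨z.2, by rw [← hmul z hz]; ring⟩, by omega⟩
        · intro z hz z' hz' hzz
          have e3 := hmul z hz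
          have e4 := hmul z' hz'
          have e5 : z.1 = z'.1 := hzz
          rw [← e5] at e4
          have hz1 : 0 < z.1 := by
            have hz2 := hz
            rw [Finset.mem_coe, mem_filter] at hz2
            have := (hTm z hz2.1).1
            omega
          have e6 : z.2 = z'.2 := Nat.eq_of_mul_eq_mul_right hz1 (e3.trans e4.symm)
          exact Prod.ext e5 e6
      calc ((T.filter (fun z => val a z.1 z.2 = v)).card : ℝ) ≤ (w.divisors.card : ℝ) := by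
            exact_mod_cast h4
        _ ≤ Cd * (w : ℝ) ^ (κ / 6) := HCd w hw1
        _ ≤ Cd * ((Y : ℝ) ^ 3) ^ (κ / 6) := by
            apply mul_le_mul_of_nonneg_left _ hCd.le
            exact Real.rpow_le_rpow (Nat.cast_nonneg _) (by exact_mod_cast hwY) (by linarith)
        _ = B := by
            rw [hB, ← Real.rpow_natCast, ← Real.rpow_mul hY0.le]
            congr 2
            push_cast
            ring
  have h4 : ((T.image (fun z => val a z.1 z.2)).card : ℝ) ≤ X * (6 * (Y : ℝ) ^ (1 - ξ)) := by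
    have hsub : T.image (fun z => val a z.1 z.2) ⊆ (pr Y ξ υ).biUnion
        (fun l => (Ioc 0 (3 * (X * Y))).filter (fun v => l ^ 2 ∣ v)) := by
      intro v hv
      rw [mem_image] at hv
      obtain ⟨z, hz, rfl⟩ := hv
      obtain ⟨d1, d2, d3, d4, l, hl, hld⟩ := hTm z hz
      rw [mem_biUnion]
      refine ⟨l, hl, ?_⟩
      rw [mem_filter, mem_Ioc]
      exact ⟨⟨Nat.pos_of_ne_zero (val_spec a z.1 z.2 (by omega) d3).1,
        (val_le a z.1 z.2 X Y e2 d3 d4 hXY haY d1 d2).1⟩, hld⟩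
    calc ((T.image (fun z => val a z.1 z.2)).card : ℝ) ≤
        ((∑ l ∈ pr Y ξ υ, ((Ioc 0 (3 * (X * Y))).filter (fun v => l ^ 2 ∣ v)).card : ℕ) : ℝ) := by
          exact_mod_cast (card_le_card hsub).trans card_biUnion_le
      _ ≤ ∑ l ∈ pr Y ξ υ, (3 * (X * Y)) * (1 / (l : ℝ) ^ 2) := by
          push_cast
          apply sum_le_sum
          intro l hl
          obtain ⟨hl1, _, _⟩ := pr_mem Y l ξ υ hY2 hl
          rw [Nat.Ioc_filter_dvd_card_eq_div]
          calc ((3 * (X * Y) / l ^ 2 : ℕ) : ℝ) ≤ ((3 * (X * Y) : ℕ) : ℝ) / ((l ^ 2 : ℕ) : ℝ) :=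
                Nat.cast_div_le
            _ = _ := by
                push_cast
                ring
      _ = (3 * (X * Y)) * ∑ l ∈ pr Y ξ υ, 1 / (l : ℝ) ^ 2 := by rw [← mul_sum]
      _ ≤ (3 * (X * Y)) * (2 / (Y : ℝ) ^ ξ) := mul_le_mul_of_nonneg_left g1 (by positivity)
      _ = _ := by
          rw [Real.rpow_sub hY0, Real.rpow_one]
          ring
  have h5 : (T.card : ℝ) ≤ X * (Y : ℝ) ^ (1 - ξ + κ) := by
    calc (T.card : ℝ) ≤ ((⌊B⌋₊ * (T.image (fun z => val a z.1 z.2)).card : ℕ) : ℝ) := by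
          exact_mod_cast h3
      _ = (⌊B⌋₊ : ℝ) * ((T.image (fun z => val a z.1 z.2)).card : ℝ) := by push_cast; rfl
      _ ≤ B * (X * (6 * (Y : ℝ) ^ (1 - ξ))) :=
          mul_le_mul (Nat.floor_le hB0) h4 (Nat.cast_nonneg _) hB0
      _ = X * ((6 * Cd) * (Y : ℝ) ^ (κ / 2) * (Y : ℝ) ^ (1 - ξ)) := by rw [hB]; ring
      _ ≤ X * ((Y : ℝ) ^ (κ / 2) * (Y : ℝ) ^ (κ / 2) * (Y : ℝ) ^ (1 - ξ)) := by gcongr
      _ = _ := by
          rw [← Real.rpow_add hY0, ← Real.rpow_add hY0]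
          congr 2
          ring
  rw [h2] at h1
  have h6 := h1.trans h5
  have h7 : (A.card : ℝ) * X ≤ (t * (Y : ℝ) ^ (1 - ξ + κ)) * X := by
    rw [mul_div_assoc', div_le_iff₀ ht] at h6
    linarith
  exact le_of_mul_le_mul_right h7 hXr

end Pool.Agent.Y882.MQ
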