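import Pool.Agent.Y882.MQ.Main

/-! Almost primes `2 k p + 1` with `k` prime, for almost all primes `p`. -/

set_option autoImplicit false

namespace Pool.Agent.Y882.MQ

open Finset Filter
open Pool.Agent.Y882

open Classical in
/-- the primes `k < 2 (p + 1)`, `p ∤ k`, `p ^ θ / 4 < k < 2 p ^ θ`, such that `2 k p + 1` has at
most `r` prime factors, all at least `p ^ ζ / 2` -/
noncomputable def kp (r : ℕ) (θ ζ : ℝ) (p : ℕ) : ℕ :=
  ((range (2 * (p + 1))).filter (fun k : ℕ => k.Prime ∧ ¬ p ∣ k ∧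
    (p : ℝ) ^ θ / 4 < k ∧ (k : ℝ) < 2 * (p : ℝ) ^ θ ∧
    (2 * k * p + 1).primeFactorsList.length ≤ r ∧
    ∀ l : ℕ, l.Prime → l ∣ 2 * k * p + 1 → (p : ℝ) ^ ζ / 2 ≤ l)).card

theorem small_kp (r : ℕ) (θ ζ : ℝ) (hθ0 : 0 < θ) (hθ1 : θ < 1) (hζ0 : 0 ≤ ζ) (p : ℕ)
    (hp1 : 1 ≤ p) (hp : 2 < (p : ℝ) ^ (1 - θ)) : smallA r θ ζ 1 (2 * p) ≤ kp r θ ζ p := by
  classical
  have hpr : (1 : ℝ) ≤ p := by exact_mod_cast hp1
  have hp0 : (0 : ℝ) < p := by linarith
  have h2p : ((2 * p : ℕ) : ℝ) = 2 * p := by push_cast; rfl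
  have h1 : ((2 * p : ℕ) : ℝ) ^ θ ≤ 2 * (p : ℝ) ^ θ := by
    rw [h2p, Real.mul_rpow (by norm_num) hp0.le]
    apply mul_le_mul_of_nonneg_right _ (by positivity)
    calc (2 : ℝ) ^ θ ≤ 2 ^ (1 : ℝ) := Real.rpow_le_rpow_of_exponent_le (by norm_num) hθ1.le
      _ = 2 := Real.rpow_one _
  have h2 : (p : ℝ) ^ θ ≤ ((2 * p : ℕ) : ℝ) ^ θ := by
    apply Real.rpow_le_rpow hp0.le _ hθ0.le
    rw [h2p]
    linarith
  have h3 : (p : ℝ) ^ ζ ≤ ((2 * p : ℕ) : ℝ) ^ ζ := by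
    apply Real.rpow_le_rpow hp0.le _ hζ0
    rw [h2p]
    linarith
  have h4 : 2 * (p : ℝ) ^ θ < p := by
    have h5 : (p : ℝ) ^ (1 - θ) * (p : ℝ) ^ θ = p := by
      rw [← Real.rpow_add hp0]
      simp
    have h6 : 0 < (p : ℝ) ^ θ := by positivity
    nlinarith
  unfold smallA kp
  apply card_le_card
  intro k hk
  rw [mem_filter] at hk ⊢
  obtain ⟨-, hpar, hk1, hk2, hk3, hk4⟩ := hk
  have hev : Even ((1 : ℤ).natAbs * (2 * p)) := by
    rw [Int.natAbs_one, one_mul]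
    exact even_two_mul p
  have hkp : k.Prime := by
    rcases hpar with h | h
    · exact h.2
    · exact absurd hev h.1
  have hna : ((k : ℤ) * ((2 * p : ℕ) : ℤ) + 1).natAbs = 2 * k * p + 1 := by
    have : (k : ℤ) * ((2 * p : ℕ) : ℤ) + 1 = ((2 * k * p + 1 : ℕ) : ℤ) := by
      push_cast
      ring
    rw [this, Int.natAbs_natCast]
  rw [hna] at hk3
  have hkp' : (k : ℝ) < p := hk2.trans (lt_of_le_of_lt h1 h4)
  have hkp2 : k < p := by exact_mod_cast hkp'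
  refine ⟨mem_range.2 (by omega), hkp, fun h => ?_, by linarith, by linarith, hk3,
    fun l hl hln => ?_⟩
  · have := Nat.le_of_dvd hkp.pos h
    omega
  · rw [hna] at hk4
    have := hk4 l hl hln
    linarith

open Classical in
theorem twoKP (r : ℕ) (θ τ ε : ℝ) (hr : 25 * (1 + θ) < (24 * r - 3) * τ) (hτ2 : 1 / 2 ≤ τ)
    (hτ : τ < 1) (hθ0 : 0 < θ) (hθ1 : θ < 1) (hε : 0 < ε) :
    ∃ δ C : ℝ, 0 < δ ∧ 0 < C ∧ ∀ X : ℕ, 1 ≤ X →
      (((Icc 1 X).filter (fun p : ℕ => p.Prime ∧ (kp r θ (τ / 4) p : ℝ) <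
          δ * ((p : ℝ) ^ θ / Real.log p ^ 2))).card : ℝ) ≤
      C * (X : ℝ) ^ (2 * τ - θ + ε) := by
  obtain ⟨δ, C, hδ, hC, H⟩ := fixedClass r θ τ 0 ε hr hτ2 hτ hθ0 hθ1.le le_rfl one_pos hε
  obtain ⟨P0, hP0⟩ := eventually_atTop.1 (((tendsto_rpow_atTop (show 0 < 1 - θ by linarith)).comp
    tendsto_natCast_atTop_atTop).eventually_gt_atTop (2 : ℝ))
  set E : ℝ := 2 * τ - θ + ε with hE
  have hE0 : 0 < E := by linarith
  have hEE : 2 * τ - θ + 0 + ε = E := by ring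
  refine ⟨δ / 4, P0 + 1 + C * 2 ^ E, by positivity, by positivity, fun X hX => ?_⟩
  have hXr : (1 : ℝ) ≤ X := by exact_mod_cast hX
  have hX0 : (0 : ℝ) < X := by linarith
  set A := (Icc 1 X).filter (fun p : ℕ => p.Prime ∧ (kp r θ (τ / 4) p : ℝ) <
          δ / 4 * ((p : ℝ) ^ θ / Real.log p ^ 2)) with hA
  set Q := (Icc 1 (2 * X)).filter (fun q : ℕ => ∃ a : ℤ, a ≠ 0 ∧ (a.natAbs : ℝ) ≤ (q : ℝ) ^ (0 : ℝ) ∧
        a.natAbs.Coprime q ∧ (smallA r θ (τ / 4) a q : ℝ) <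
          δ * sgs (a.natAbs * q) * ((q : ℝ) ^ θ / Real.log q ^ 2)) with hQ
  have hsub : A ⊆ range (P0 + 1) ∪ A.filter (fun p => P0 < p) := by
    intro p hp
    rw [mem_union, mem_range, mem_filter]
    by_cases h : P0 < p
    · right
      exact ⟨hp, h⟩
    · left
      omega
  have hcard : (A.filter (fun p => P0 < p)).card ≤ Q.card := by
    apply card_le_card_of_injOn (fun p => 2 * p)
    · intro p hp
      rw [Finset.mem_coe, mem_filter, hA, mem_filter, mem_Icc] at hp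
      obtain ⟨⟨⟨h1, h2⟩, h3, h4⟩, h5⟩ := hp
      change 2 * p ∈ Q
      rw [hQ, mem_filter, mem_Icc]
      refine ⟨⟨by omega, by omega⟩, 1, one_ne_zero, ?_, ?_, ?_⟩
      · rw [Real.rpow_zero]
        simp
      · rw [Int.natAbs_one]
        exact Nat.coprime_one_left _
      · have h6 := small_kp r θ (τ / 4) hθ0 hθ1 (by linarith) p h1 (hP0 p (by omega))
        have h7 : (smallA r θ (τ / 4) 1 (2 * p) : ℝ) ≤ kp r θ (τ / 4) p := by exact_mod_cast h6
        refine h7.trans_lt (h4.trans_le ?_)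
        have hp2 : (2 : ℝ) ≤ p := by exact_mod_cast h3.two_le
        have hp0 : (0 : ℝ) < p := by linarith
        have hlp : 0 < Real.log p := Real.log_pos (by linarith)
        have h2p : ((2 * p : ℕ) : ℝ) = 2 * p := by push_cast; rfl
        have hlp2 : 0 < Real.log ((2 * p : ℕ) : ℝ) := by
          rw [h2p]
          exact Real.log_pos (by linarith)
        have hl : Real.log ((2 * p : ℕ) : ℝ) ≤ 2 * Real.log p := by
          rw [h2p, Real.log_mul (by norm_num) hp0.ne']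
          have : Real.log 2 ≤ Real.log p := Real.log_le_log (by norm_num) hp2
          linarith
        have hs : 1 ≤ sgs ((1 : ℤ).natAbs * (2 * p)) := one_le_sgs _
        have h8 : (p : ℝ) ^ θ ≤ ((2 * p : ℕ) : ℝ) ^ θ := by
          apply Real.rpow_le_rpow hp0.le _ hθ0.le
          rw [h2p]
          linarith
        calc δ / 4 * ((p : ℝ) ^ θ / Real.log p ^ 2) = δ * ((p : ℝ) ^ θ / (2 * Real.log p) ^ 2) := by
              field_simp
              ring
          _ ≤ δ * (((2 * p : ℕ) : ℝ) ^ θ / Real.log ((2 * p : ℕ) : ℝ) ^ 2) := by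
              apply mul_le_mul_of_nonneg_left _ hδ.le
              apply div_le_div₀ (by positivity) h8 (by positivity)
              exact pow_le_pow_left₀ hlp2.le hl 2
          _ ≤ _ := by
              apply mul_le_mul_of_nonneg_right _ (by positivity)
              exact le_mul_of_one_le_right hδ.le hs
    · intro p _ p' _ h
      have h' : 2 * p = 2 * p' := h
      omega
  have h1 : (A.card : ℝ) ≤ (P0 + 1 : ℝ) + Q.card := by
    have h2 : A.card ≤ (P0 + 1) + Q.card := by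
      refine (card_le_card hsub).trans ((card_union_le _ _).trans ?_)
      rw [card_range]
      omega
    exact_mod_cast h2
  have h2 := H (2 * X) (by omega)
  rw [hEE] at h2
  have h3 : ((2 * X : ℕ) : ℝ) ^ E = 2 ^ E * (X : ℝ) ^ E := by
    push_cast
    exact Real.mul_rpow (by norm_num) hX0.le
  rw [h3] at h2
  have h4 : (1 : ℝ) ≤ (X : ℝ) ^ E := Real.one_le_rpow hXr hE0.le
  have h5 : (P0 + 1 : ℝ) ≤ (P0 + 1 : ℝ) * (X : ℝ) ^ E := le_mul_of_one_le_right (by positivity) h4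
  calc (A.card : ℝ) ≤ (P0 + 1 : ℝ) + Q.card := h1
    _ ≤ (P0 + 1 : ℝ) * (X : ℝ) ^ E + C * (2 ^ E * (X : ℝ) ^ E) := add_le_add h5 h2
    _ = _ := by ring

end Pool.Agent.Y882.MQ
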